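import Pool.Agent.H126R3.RankB
import Pool.Agent.H341R2.WeilSharp

set_option autoImplicit false

namespace Pool.Agent.H126R3

open MvPolynomial

/-- the Schwartz–Zippel bound over a finite field -/
theorem sz {τ : Type} [Fintype τ] {F : Type} [Field F] [Fintype F] (p : MvPolynomial τ F)
    (hp : p ≠ 0) : (Nat.card {u : τ → F // eval u p = 0} : ℝ) * Fintype.card F ≤
      p.totalDegree * (Fintype.card F : ℝ) ^ Fintype.card τ := by
  classical
  let e := Fintype.equivFin τ
  have hp' : rename e p ≠ 0 := by
    intro h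
    apply hp
    apply rename_injective e e.injective
    rw [h, map_zero]
  have h1 := schwartz_zippel_totalDegree hp' (Finset.univ : Finset F)
  have h2 : Nat.card {u : τ → F // eval u p = 0} =
      (Finset.filter (fun f => eval f (rename e p) = 0)
        (Fintype.piFinset fun _ : Fin (Fintype.card τ) => (Finset.univ : Finset F))).card := by
    have h3 : Nat.card {u : τ → F // eval u p = 0} =
        Nat.card {f : Fin (Fintype.card τ) → F // eval f (rename e p) = 0} := by
      refine Nat.card_congr (Equiv.subtypeEquiv (Equiv.arrowCongr e (Equiv.refl F)) ?_)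
      intro u
      rw [eval_rename]
      have : (Equiv.arrowCongr e (Equiv.refl F)) u ∘ e = u := by
        funext j
        simp [Equiv.arrowCongr]
      rw [this]
    rw [h3, Nat.card_eq_fintype_card, Fintype.card_subtype]
    congr 1
  rw [← h2] at h1
  have hq : (0 : ℚ≥0) < Fintype.card F := by exact_mod_cast Fintype.card_pos
  rw [Finset.card_univ, div_le_div_iff₀ (pow_pos hq _) hq] at h1
  have h4 : ((Nat.card {u : τ → F // eval u p = 0} : ℕ) : ℝ) * Fintype.card F ≤
      ((rename e p).totalDegree : ℝ) * (Fintype.card F : ℝ) ^ Fintype.card τ := by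
    have h5 : (Nat.card {u : τ → F // eval u p = 0}) * Fintype.card F ≤
      (rename e p).totalDegree * (Fintype.card F) ^ Fintype.card τ := by exact_mod_cast h1
    exact_mod_cast h5
  refine h4.trans ?_
  gcongr
  exact totalDegree_rename_le _ _

open Classical in
theorem charM {σ : Type} [Fintype σ] (H : MvPolynomial σ ℤ) (hs : SqfreeNC H) (i : σ)
    (hi : 0 < H.degreeOf i) : ∃ (C : ℝ) (M : ℤ), 0 ≤ C ∧ M ≠ 0 ∧
    ∀ (F : Type) [Field F] [Fintype F], (M : F) ≠ 0 →
      |∑ t : σ → F, (quadraticChar F (aeval (R := ℤ) t H) : ℝ)| ≤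
        ((H.degreeOf i : ℝ) - 1) * Real.sqrt (Fintype.card F) * (Fintype.card F : ℝ) ^ (Fintype.card σ - 1) +
          C * (Fintype.card F : ℝ) ^ (Fintype.card σ - 1) := by
  have hH0 : slice i H ≠ 0 := by
    intro h
    have := natDegree_slice i H
    rw [h, Polynomial.natDegree_zero] at this
    omega
  obtain ⟨U, V, r, hr, hbez⟩ := bezout_fraction (slice i H) hH0 (slice_sqfree i H hs)
  have hcard : Fintype.card {j : σ // j ≠ i} = Fintype.card σ - 1 := by
    rw [Fintype.card_subtype_compl, Fintype.card_subtype_eq]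
  set w : MvPolynomial {j : σ // j ≠ i} ℤ := r * (slice i H).leadingCoeff with hw
  have hw0 : w ≠ 0 := mul_ne_zero hr (Polynomial.leadingCoeff_ne_zero.2 hH0)
  obtain ⟨μ, hμ⟩ : ∃ μ, coeff μ w ≠ 0 := by
    by_contra hcon
    push Not at hcon
    exact hw0 (MvPolynomial.ext _ _ (by simpa using hcon))
  refine ⟨w.totalDegree, 2 * coeff μ w, Nat.cast_nonneg _, mul_ne_zero two_ne_zero hμ, ?_⟩
  intro F _ _ hM
  have hF : ringChar F ≠ 2 := by
    intro h2
    apply hM
    have : ((2 : ℤ) : F) = 0 := by
      have := ringChar.Nat.cast_ringChar (R := F)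
      rw [h2] at this
      exact_mod_cast this
    push_cast at this ⊢
    rw [this, zero_mul]
  have hμF : ((coeff μ w : ℤ) : F) ≠ 0 := by
    intro h
    apply hM
    push_cast
    rw [h, mul_zero]
  set ι : MvPolynomial {j : σ // j ≠ i} ℤ → ({j : σ // j ≠ i} → F) → F := fun P u =>
    aeval (R := ℤ) u P with hι
  let ev : ({j : σ // j ≠ i} → F) → (MvPolynomial {j : σ // j ≠ i} ℤ →+* F) := fun u =>
    ((aeval (R := ℤ) u : MvPolynomial {j : σ // j ≠ i} ℤ →ₐ[ℤ] F) : MvPolynomial {j : σ // j ≠ i} ℤ →+* F)
  have hsum : ∑ t : σ → F, (quadraticChar F (aeval (R := ℤ) t H) : ℝ) =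
      ∑ u : {j : σ // j ≠ i} → F, ∑ x : F,
        (quadraticChar F (((slice i H).map (ev u)).eval x) : ℝ) := by
    rw [← Fintype.sum_prod_type_right']
    apply Fintype.sum_equiv (Equiv.piSplitAt i (fun _ => F))
    intro t
    rw [slice_eval i t H]
    rfl
  have hin : ∀ u : {j : σ // j ≠ i} → F, ev u w ≠ 0 →
      |∑ x : F, (quadraticChar F (((slice i H).map (ev u)).eval x) : ℝ)| ≤
        ((H.degreeOf i : ℝ) - 1) * Real.sqrt (Fintype.card F) := by
    intro u hu
    rw [hw, map_mul] at hu
    have hr' : ev u r ≠ 0 := left_ne_zero_of_mul hu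
    have hl' : ev u (slice i H).leadingCoeff ≠ 0 := right_ne_zero_of_mul hu
    have hnd : ((slice i H).map (ev u)).natDegree = H.degreeOf i := by
      rw [Polynomial.natDegree_map_of_leadingCoeff_ne_zero _ hl', natDegree_slice]
    have h := H341R2.Sharp.weil_sharp hF ((slice i H).map (ev u)) (by omega) (by
      intro c g hc
      have hb := congrArg (Polynomial.map (ev u)) hbez
      rw [Polynomial.map_add, Polynomial.map_mul, Polynomial.map_mul, Polynomial.map_C,
        ← Polynomial.derivative_map] at hb
      have hd : g ∣ Polynomial.C (ev u r) := by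
        rw [← hb, hc]
        refine dvd_add ?_ ?_
        · exact Dvd.dvd.mul_left (Dvd.dvd.mul_left (dvd_pow_self g two_ne_zero) _) _
        · refine Dvd.dvd.mul_left ?_ _
          rw [Polynomial.derivative_C_mul, Polynomial.derivative_pow]
          refine Dvd.dvd.mul_left ?_ _
          refine Dvd.dvd.mul_right ?_ _
          norm_num
      have hg : IsUnit g := isUnit_of_dvd_unit hd (Polynomial.isUnit_C.2 hr'.isUnit)
      have hc0 : c ≠ 0 := by
        rintro rfl
        rw [Polynomial.C_0, zero_mul] at hc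
        rw [hc, Polynomial.natDegree_zero] at hnd
        omega
      rw [hc, Polynomial.natDegree_C_mul hc0, Polynomial.natDegree_pow,
        Polynomial.natDegree_eq_zero_of_isUnit hg] at hnd
      omega)
    rw [hnd] at h
    exact h
  have htriv : ∀ u : {j : σ // j ≠ i} → F,
      |∑ x : F, (quadraticChar F (((slice i H).map (ev u)).eval x) : ℝ)| ≤ Fintype.card F := by
    intro u
    refine (Finset.abs_sum_le_sum_abs _ _).trans ?_
    have : ∀ x ∈ (Finset.univ : Finset F),
        |(quadraticChar F (((slice i H).map (ev u)).eval x) : ℝ)| ≤ 1 := by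
      intro x _
      by_cases h0 : ((slice i H).map (ev u)).eval x = 0
      · rw [h0]; simp
      · rcases quadraticChar_dichotomy h0 with h | h <;> simp [h]
    refine (Finset.sum_le_sum this).trans ?_
    simp
  have hw' : MvPolynomial.map (Int.castRingHom F) w ≠ 0 := by
    intro h
    apply hμF
    have := congrArg (coeff μ) h
    rw [coeff_map, coeff_zero] at this
    exact this
  have hbad := sz (MvPolynomial.map (Int.castRingHom F) w) hw'
  have hev : ∀ u, eval u (MvPolynomial.map (Int.castRingHom F) w) = ev u w := by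
    intro u
    rw [eval_map]
    rfl
  simp only [hev] at hbad
  have hm1 : (0 : ℝ) ≤ ((H.degreeOf i : ℝ) - 1) * Real.sqrt (Fintype.card F) := by
    apply mul_nonneg _ (Real.sqrt_nonneg _)
    have : (1 : ℝ) ≤ H.degreeOf i := by exact_mod_cast hi
    linarith
  rw [hsum]
  refine (Finset.abs_sum_le_sum_abs _ _).trans ?_
  have hstep : ∀ u ∈ (Finset.univ : Finset ({j : σ // j ≠ i} → F)),
      |∑ x : F, (quadraticChar F (((slice i H).map (ev u)).eval x) : ℝ)| ≤
      ((H.degreeOf i : ℝ) - 1) * Real.sqrt (Fintype.card F) +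
        if ev u w = 0 then (Fintype.card F : ℝ) else 0 := by
    intro u _
    by_cases h0 : ev u w = 0
    · rw [if_pos h0]
      linarith [htriv u]
    · rw [if_neg h0, add_zero]
      exact hin u h0
  refine (Finset.sum_le_sum hstep).trans ?_
  rw [Finset.sum_add_distrib, Finset.sum_const, Finset.card_univ, Fintype.card_fun, hcard, nsmul_eq_mul,
    ← Finset.sum_filter, Finset.sum_const, nsmul_eq_mul]
  rw [Nat.card_eq_fintype_card, Fintype.card_subtype, hcard] at hbad
  have hdeg : ((MvPolynomial.map (Int.castRingHom F) w).totalDegree : ℝ) ≤ w.totalDegree := by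
    exact_mod_cast Finset.sup_mono (support_map_subset _ _)
  push_cast
  have hpow : (0 : ℝ) ≤ (Fintype.card F : ℝ) ^ (Fintype.card σ - 1) := by positivity
  nlinarith [mul_le_mul_of_nonneg_right hdeg hpow]

end Pool.Agent.H126R3
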