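import Pool.Agent.H126R3.Phi2
import Pool.Agent.H126R3.CharM

set_option autoImplicit false

namespace Pool.Agent.H126R3

open MvPolynomial

theorem summ_ind (K a : ℝ) (hK : 0 ≤ K) (ha : a < -1) (j : ℕ) :
    Summable (fun c : Nat.Primes × ℕ =>
      (K * ((c.1 : ℕ) : ℝ) ^ a) * (if c.2 = j then (1 : ℝ) else 0)) := by
  have g1 : Summable (fun p : Nat.Primes => K * ((p : ℕ) : ℝ) ^ a) :=
    (Nat.Primes.summable_rpow.2 ha).mul_left K
  have g2 : Summable (fun k : ℕ => if k = j then (1 : ℝ) else 0) :=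
    (hasSum_ite_eq j (1 : ℝ)).summable
  exact g1.mul_of_nonneg g2 (fun p => by positivity) (fun k => by
    change (0 : ℝ) ≤ if k = j then (1 : ℝ) else 0
    split_ifs <;> norm_num)

theorem sumAc {σ : Type} [Fintype σ] (a₂ a₄ a₆ N : ℤ) (D : MvPolynomial σ ℤ) (h2 : 2 ∣ N)
    (K β : ℝ) (hK : 0 ≤ K)
    (h0 : ∀ p : Nat.Primes, |Ac a₂ a₄ a₆ N D (p, 0)| ≤ K * ((p : ℕ) : ℝ) ^ β)
    (h1 : ∀ p : Nat.Primes, |Ac a₂ a₄ a₆ N D (p, 1)| ≤ K * ((p : ℕ) : ℝ) ^ (2 * Fintype.card σ))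
    (σ₁ : ℝ) (hσ : (Fintype.card σ : ℝ) + 5 / 6 < σ₁) (hβ : β + 1 < σ₁) :
    Summable (fun c => |Ac a₂ a₄ a₆ N D c| * (Qc c : ℝ) ^ (-σ₁)) := by
  have s0 := summ_ind K (β - σ₁) hK (by linarith) 0
  have s1 := summ_ind K (2 * (Fintype.card σ : ℝ) - 2 * σ₁) hK (by linarith) 1
  have s2 := (summable_Q (σ₁ - Fintype.card σ - 1 / 2) (by linarith) 2
    (by push_cast; linarith)).mul_left 2
  refine Summable.of_nonneg_of_le (fun c => mul_nonneg (abs_nonneg _)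
    (Real.rpow_nonneg (Nat.cast_nonneg _) _)) (fun c => ?_) ((s0.add s1).add s2)
  have hp0 : (0 : ℝ) < ((c.1 : ℕ) : ℝ) := by exact_mod_cast c.1.2.pos
  have hQ0 : (0 : ℝ) < Qc c := by exact_mod_cast Qc_pos c
  obtain ⟨p, k⟩ := c
  change |Ac a₂ a₄ a₆ N D (p, k)| * (Qc (p, k) : ℝ) ^ (-σ₁) ≤
    (K * ((p : ℕ) : ℝ) ^ (β - σ₁)) * (if k = 0 then (1 : ℝ) else 0) +
    (K * ((p : ℕ) : ℝ) ^ (2 * (Fintype.card σ : ℝ) - 2 * σ₁)) * (if k = 1 then (1 : ℝ) else 0) +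
    2 * (if 2 ≤ k then (Qc (p, k) : ℝ) ^ (-(σ₁ - Fintype.card σ - 1 / 2)) else 0)
  change (0 : ℝ) < ((p : ℕ) : ℝ) at hp0
  rcases Nat.lt_or_ge k 2 with hk | hk
  · rcases Nat.lt_or_ge k 1 with hk' | hk'
    · have hk0 : k = 0 := by omega
      subst hk0
      have e1 : |Ac a₂ a₄ a₆ N D (p, 0)| * (Qc (p, 0) : ℝ) ^ (-σ₁) ≤ K * ((p : ℕ) : ℝ) ^ (β - σ₁) := by
        calc |Ac a₂ a₄ a₆ N D (p, 0)| * (Qc (p, 0) : ℝ) ^ (-σ₁) ≤
            (K * ((p : ℕ) : ℝ) ^ β) * (Qc (p, 0) : ℝ) ^ (-σ₁) :=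
              mul_le_mul_of_nonneg_right (h0 p) (by positivity)
          _ = K * ((p : ℕ) : ℝ) ^ (β - σ₁) := by
              rw [Qc_rpow, mul_assoc, ← Real.rpow_add hp0]
              congr 2
              push_cast
              ring
      rw [if_pos rfl, if_neg (by norm_num), if_neg (by norm_num), mul_one, mul_zero, mul_zero,
        add_zero, add_zero]
      exact e1
    · have hk1 : k = 1 := by omega
      subst hk1
      have e1 : |Ac a₂ a₄ a₆ N D (p, 1)| * (Qc (p, 1) : ℝ) ^ (-σ₁) ≤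
          K * ((p : ℕ) : ℝ) ^ (2 * (Fintype.card σ : ℝ) - 2 * σ₁) := by
        calc |Ac a₂ a₄ a₆ N D (p, 1)| * (Qc (p, 1) : ℝ) ^ (-σ₁) ≤
            (K * ((p : ℕ) : ℝ) ^ (2 * Fintype.card σ)) * (Qc (p, 1) : ℝ) ^ (-σ₁) :=
              mul_le_mul_of_nonneg_right (h1 p) (by positivity)
          _ = K * ((p : ℕ) : ℝ) ^ (2 * (Fintype.card σ : ℝ) - 2 * σ₁) := by
              rw [Qc_rpow, mul_assoc, ← Real.rpow_natCast, ← Real.rpow_add hp0]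
              congr 2
              push_cast
              ring
      rw [if_neg (by norm_num), if_pos rfl, if_neg (by norm_num), mul_one, mul_zero, mul_zero,
        add_zero, zero_add]
      exact e1
  · have e1 : |Ac a₂ a₄ a₆ N D (p, k)| * (Qc (p, k) : ℝ) ^ (-σ₁) ≤
        2 * (Qc (p, k) : ℝ) ^ (-(σ₁ - Fintype.card σ - 1 / 2)) := by
      have e2 := Ac_trivial a₂ a₄ a₆ N D h2 (p, k)
      have e3 : Real.sqrt ((((p, k) : Nat.Primes × ℕ).1 : ℕ) ^ (((p, k) : Nat.Primes × ℕ).2 + 1) : ℝ) =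
          (Qc (p, k) : ℝ) ^ (1 / 2 : ℝ) := by
        rw [Qc, Nat.cast_pow, Real.sqrt_eq_rpow]
      have e4 : ((((p, k) : Nat.Primes × ℕ).1 : ℕ) : ℝ) ^ ((((p, k) : Nat.Primes × ℕ).2 + 1) * Fintype.card σ) =
          (Qc (p, k) : ℝ) ^ (Fintype.card σ : ℝ) := by
        rw [Real.rpow_natCast, Qc, Nat.cast_pow, pow_mul]
      rw [e3, e4] at e2
      calc |Ac a₂ a₄ a₆ N D (p, k)| * (Qc (p, k) : ℝ) ^ (-σ₁) ≤
          (2 * (Qc (p, k) : ℝ) ^ (1 / 2 : ℝ) * (Qc (p, k) : ℝ) ^ (Fintype.card σ : ℝ)) *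
            (Qc (p, k) : ℝ) ^ (-σ₁) := mul_le_mul_of_nonneg_right e2 (by positivity)
        _ = 2 * (Qc (p, k) : ℝ) ^ (-(σ₁ - Fintype.card σ - 1 / 2)) := by
            rw [mul_assoc, mul_assoc, ← Real.rpow_add hQ0, ← Real.rpow_add hQ0]
            congr 2
            ring
    have hk0 : k ≠ 0 := by omega
    have hk1 : k ≠ 1 := by omega
    rw [if_neg hk0, if_neg hk1, if_pos hk, mul_zero, mul_zero, zero_add, zero_add]
    exact e1

theorem charK {σ : Type} [Fintype σ] (H : MvPolynomial σ ℤ) (hs : SqfreeNC H)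
    (h : 0 < H.totalDegree) : 1 ≤ Fintype.card σ ∧ ∃ (K : ℝ) (M : ℤ), 0 ≤ K ∧ M ≠ 0 ∧
    ∀ (F : Type) [Field F] [Fintype F], (M : F) ≠ 0 →
      |XF F H| ≤ K * (Real.sqrt (Fintype.card F) * (Fintype.card F : ℝ) ^ (Fintype.card σ - 1)) := by
  classical
  obtain ⟨i, hi⟩ := exists_var H h
  obtain ⟨C, M, hC, hM, hb⟩ := charM H hs i hi
  have hdeg : (1 : ℝ) ≤ H.degreeOf i := by exact_mod_cast hi
  refine ⟨Fintype.card_pos_iff.2 ⟨i⟩, (H.degreeOf i : ℝ) - 1 + C, M, by linarith, hM, ?_⟩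
  intro F _ _ hMF
  have h1 := hb F hMF
  rw [XF]
  refine (le_trans (by convert h1) ?_)
  have hq : (1 : ℝ) ≤ Real.sqrt (Fintype.card F) := by
    rw [Real.one_le_sqrt]
    exact_mod_cast Fintype.card_pos
  have hpow : (0 : ℝ) ≤ (Fintype.card F : ℝ) ^ (Fintype.card σ - 1) := by positivity
  nlinarith [mul_le_mul_of_nonneg_right hq (mul_nonneg hC hpow)]

theorem XF_prod {σ₁ σ₂ : Type} [Fintype σ₁] [Fintype σ₂] (F : Type) [Field F] [Fintype F]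
    (H₁ : MvPolynomial σ₁ ℤ) (H₂ : MvPolynomial σ₂ ℤ) :
    XF F (rename Sum.inl H₁ * rename Sum.inr H₂ : MvPolynomial (σ₁ ⊕ σ₂) ℤ) = XF F H₁ * XF F H₂ := by
  classical
  rw [XF, XF, XF, Finset.sum_mul_sum, ← Fintype.sum_prod_type']
  apply Finset.sum_equiv (Equiv.sumArrowEquivProdArrow σ₁ σ₂ F) (by simp)
  intro t _
  rw [map_mul, map_mul, aeval_rename, aeval_rename]
  push_cast
  rfl

end Pool.Agent.H126R3
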