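import Pool.Agent.H126R3.Sums

set_option autoImplicit false

namespace Pool.Agent.H126R3

open MvPolynomial

open Classical in
/-- the character sum of `D` over `F^σ` -/
noncomputable def XF {σ : Type} [Fintype σ] (F : Type) [Field F] [Fintype F]
    (D : MvPolynomial σ ℤ) : ℝ :=
  ∑ t : σ → F, (quadraticChar F (aeval (R := ℤ) t D) : ℝ)

theorem odd_of_ne {F : Type} [Field F] {N : ℤ} (h2 : 2 ∣ N) (hN : (N : F) ≠ 0) : ringChar F ≠ 2 := by
  intro h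
  apply hN
  obtain ⟨M, rfl⟩ := h2
  have := ringChar.Nat.cast_ringChar (R := F)
  rw [h] at this
  push_cast at this ⊢
  rw [this, zero_mul]

open Classical in
theorem good_tr {σ : Type} {F : Type} [Field F] [Fintype F] (a₂ a₄ a₆ N : ℤ) (h2 : 2 ∣ N)
    (hN : (N : F) ≠ 0) (D : MvPolynomial σ ℤ) (t : σ → F) :
    (if Good N D (ptOf t) then (tr F a₂ a₄ a₆ (aeval (R := ℤ) t D) : ℝ) else 0) =
      -(fs F a₂ a₄ a₆ : ℝ) * (quadraticChar F (aeval (R := ℤ) t D) : ℝ) := by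
  by_cases h : aeval (R := ℤ) t D = 0
  · rw [if_neg (by rw [good_ptOf]; exact fun h' => h'.2 h), h]
    simp
  · rw [if_pos (by rw [good_ptOf]; exact ⟨hN, h⟩), tr_eq F (odd_of_ne h2 hN) a₂ a₄ a₆ _ h]
    push_cast
    ring

open Classical in
theorem Ac_eq {σ : Type} [Fintype σ] (a₂ a₄ a₆ N : ℤ) (D : MvPolynomial σ ℤ)
    (c : Nat.Primes × ℕ) {F : Type} [Field F] [Fintype F]
    (hF : Fintype.card F = (c.1 : ℕ) ^ (c.2 + 1)) :
    (c.2 + 1 : ℕ) * Ac a₂ a₄ a₆ N D c = ∑ t : {t : σ → F // pk (ptOf t) = c},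
      if Good N D (ptOf t.1) then (tr F a₂ a₄ a₆ (aeval (R := ℤ) t.1 D) : ℝ) else 0 := by
  rw [Ac]
  have h := sum_fib c hF (fun y => if Good N D y.1 then (ay a₂ a₄ a₆ D y.1 : ℝ) else 0)
  rw [← h]
  apply Finset.sum_congr rfl
  intro t _
  have := ay_ptOf c.1 c.2 hF a₂ a₄ a₆ D t.1 t.2
  simp only [this]

open Classical in
theorem Ac_of_bad {σ : Type} [Fintype σ] (a₂ a₄ a₆ N : ℤ) (D : MvPolynomial σ ℤ)
    (c : Nat.Primes × ℕ) {F : Type} [Field F] [Fintype F]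
    (hF : Fintype.card F = (c.1 : ℕ) ^ (c.2 + 1)) (hN : (N : F) = 0) : Ac a₂ a₄ a₆ N D c = 0 := by
  have h := Ac_eq a₂ a₄ a₆ N D c hF
  rw [Finset.sum_eq_zero] at h
  · rcases mul_eq_zero.1 h with h' | h'
    · exfalso
      have : (0 : ℝ) < ((c.2 + 1 : ℕ) : ℝ) := by positivity
      linarith
    · exact h'
  · intro t _
    rw [if_neg]
    rw [good_ptOf]
    exact fun h' => h'.1 hN

theorem pk_zero {σ : Type} [Finite σ] (p : Nat.Primes) {F : Type} [Field F] [Fintype F]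
    (hF : Fintype.card F = (p : ℕ) ^ (0 + 1)) (t : σ → F) : pk (ptOf t) = (p, 0) := by
  obtain ⟨h1, h2⟩ := pk_ptOf F t p 0 hF
  have h3 := Nat.le_of_dvd (by norm_num) h2
  exact Prod.ext h1 (by simpa using h3)

theorem pk_one {σ : Type} [Finite σ] (p : Nat.Primes) {F : Type} [Field F] [Fintype F]
    (hF : Fintype.card F = (p : ℕ) ^ (1 + 1)) (t : σ → F) (ht : pk (ptOf t) ≠ (p, 1)) :
    pk (ptOf t) = (p, 0) := by
  obtain ⟨h1, h2⟩ := pk_ptOf F t p 1 hF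
  have h3 := Nat.le_of_dvd (by norm_num) h2
  refine Prod.ext h1 ?_
  have h4 : (pk (ptOf t)).2 ≠ 1 := fun h => ht (Prod.ext h1 h)
  change (pk (ptOf t)).2 = 0
  omega

open Classical in
theorem Ac_zero_bound {σ : Type} [Fintype σ] (a₂ a₄ a₆ N : ℤ) (h2 : 2 ∣ N) (D : MvPolynomial σ ℤ)
    (p : Nat.Primes) {F : Type} [Field F] [Fintype F]
    (hF : Fintype.card F = (p : ℕ) ^ (0 + 1)) (hN : (N : F) ≠ 0) :
    Ac a₂ a₄ a₆ N D (p, 0) = -(fs F a₂ a₄ a₆ : ℝ) * XF F D := by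
  have h := Ac_eq a₂ a₄ a₆ N D (p, 0) hF
  rw [show (((p, 0) : Nat.Primes × ℕ).2 + 1 : ℕ) = 1 from rfl, Nat.cast_one, one_mul] at h
  rw [h, XF, Finset.mul_sum]
  let e : {t : σ → F // pk (ptOf t) = (p, 0)} ≃ (σ → F) :=
    Equiv.subtypeUnivEquiv (pk_zero p hF)
  apply Fintype.sum_equiv e
  intro t
  exact good_tr a₂ a₄ a₆ N h2 hN D t.1

theorem subsing {σ : Type} [Finite σ] (y : Pt σ) (p : Nat.Primes) (hy : pk y = (p, 0)) (F : Type)
    [Field F] : Subsingleton (Res y →+* F) := by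
  have := Fintype.ofFinite (Res y)
  have h1 := qy_eq y
  rw [hy, qy, Nat.card_eq_fintype_card] at h1
  simp only [zero_add, pow_one] at h1
  let e := ZMod.ringEquivOfPrime (Res y) p.2 h1
  constructor
  intro f g
  have h2 : f.comp (e : ZMod p →+* Res y) = g.comp (e : ZMod p →+* Res y) := Subsingleton.elim _ _
  apply RingHom.ext
  intro x
  have h3 : f (e (e.symm x)) = g (e (e.symm x)) := congrArg (fun k => k (e.symm x)) h2
  rwa [e.apply_symm_apply] at h3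

theorem card_compl {σ : Type} [Fintype σ] (p : Nat.Primes) {F : Type} [Field F] [Fintype F]
    (hF : Fintype.card F = (p : ℕ) ^ (1 + 1)) :
    (Nat.card {t : σ → F // ¬ pk (ptOf t) = (p, 1)} : ℝ) ≤ ((p : ℕ) : ℝ) ^ Fintype.card σ := by
  classical
  have h1 : Function.Injective (fun t : {t : σ → F // ¬ pk (ptOf t) = (p, 1)} =>
      (⟨ptOf t.1, pk_one p hF t.1 t.2⟩ : Yc (σ := σ) (p, 0))) := by
    intro t t' htt
    have h2 : ptOf t.1 = ptOf t'.1 := congrArg Subtype.val htt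
    have h3 := subsing (ptOf t'.1) p (pk_one p hF t'.1 t'.2) F
    have h4 := h3.elim (fiberEquiv (F := F) (ptOf t'.1) ⟨t.1, h2⟩)
      (fiberEquiv (F := F) (ptOf t'.1) ⟨t'.1, rfl⟩)
    have h5 := (fiberEquiv (F := F) (ptOf t'.1)).injective h4
    have h6 : t.1 = t'.1 := congrArg (fun z : {t : σ → F // ptOf t = ptOf t'.1} => z.1) h5
    exact Subtype.ext h6
  have h2 := Nat.card_le_card_of_injective _ h1
  have h3 := card_Yc_le (σ := σ) (p, 0)
  rw [Nat.card_eq_fintype_card (α := Yc (σ := σ) (p, 0))] at h2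
  have h4 : (((p, 0) : Nat.Primes × ℕ).2 + 1) * Fintype.card σ = Fintype.card σ := by
    simp
  rw [h4] at h3
  refine le_trans ?_ h3
  exact_mod_cast h2

open Classical in
theorem Ac_one_bound {σ : Type} [Fintype σ] (a₂ a₄ a₆ N : ℤ) (h2 : 2 ∣ N) (D : MvPolynomial σ ℤ)
    (p : Nat.Primes) {F : Type} [Field F] [Fintype F]
    (hF : Fintype.card F = (p : ℕ) ^ (1 + 1)) :
    |Ac a₂ a₄ a₆ N D (p, 1)| ≤ (p : ℕ) * |XF F D| + ((p : ℕ) : ℝ) ^ (Fintype.card σ + 1) := by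
  by_cases hN : (N : F) = 0
  · rw [Ac_of_bad a₂ a₄ a₆ N D (p, 1) hF hN, abs_zero]
    positivity
  have hodd := odd_of_ne h2 hN
  have h := Ac_eq a₂ a₄ a₆ N D (p, 1) hF
  set g : (σ → F) → ℝ := fun t =>
    if Good N D (ptOf t) then (tr F a₂ a₄ a₆ (aeval (R := ℤ) t D) : ℝ) else 0 with hg
  have hg1 : ∀ t, g t = -(fs F a₂ a₄ a₆ : ℝ) * (quadraticChar F (aeval (R := ℤ) t D) : ℝ) :=
    fun t => good_tr a₂ a₄ a₆ N h2 hN D t
  have hsq : Real.sqrt (Fintype.card F) = (p : ℕ) := by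
    rw [hF]
    push_cast
    exact Real.sqrt_sq (Nat.cast_nonneg _)
  have hfs := fs_bound F hodd a₂ a₄ a₆
  rw [hsq] at hfs
  have hg2 : ∀ t, |g t| ≤ 2 * (p : ℕ) := by
    intro t
    rw [hg1, abs_mul, abs_neg]
    have : |((quadraticChar F (aeval (R := ℤ) t D) : ℤ) : ℝ)| ≤ 1 := by
      by_cases h0 : aeval (R := ℤ) t D = 0
      · rw [h0]; simp
      · rcases quadraticChar_dichotomy h0 with h | h <;> simp [h]
    calc |(fs F a₂ a₄ a₆ : ℝ)| * |((quadraticChar F (aeval (R := ℤ) t D) : ℤ) : ℝ)|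
        ≤ (2 * (p : ℕ)) * 1 := mul_le_mul hfs this (abs_nonneg _) (by positivity)
      _ = 2 * (p : ℕ) := mul_one _
  have htot : ∑ t : σ → F, g t = -(fs F a₂ a₄ a₆ : ℝ) * XF F D := by
    rw [XF, Finset.mul_sum]
    exact Finset.sum_congr rfl fun t _ => hg1 t
  have hsplit := Fintype.sum_subtype_add_sum_subtype (fun t : σ → F => pk (ptOf t) = (p, 1)) g
  have hcomp : |∑ t : {t : σ → F // ¬ pk (ptOf t) = (p, 1)}, g t.1| ≤
      ((p : ℕ) : ℝ) ^ Fintype.card σ * (2 * (p : ℕ)) := by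
    refine (Finset.abs_sum_le_sum_abs _ _).trans ?_
    refine (Finset.sum_le_sum fun t _ => hg2 t.1).trans ?_
    rw [Finset.sum_const, Finset.card_univ, nsmul_eq_mul, ← Nat.card_eq_fintype_card]
    exact mul_le_mul_of_nonneg_right (card_compl p hF) (by positivity)
  have h5 : (2 : ℝ) * Ac a₂ a₄ a₆ N D (p, 1) = ∑ t : {t : σ → F // pk (ptOf t) = (p, 1)}, g t.1 := by
    rw [← h]
    norm_num
  have h6 : (2 : ℝ) * Ac a₂ a₄ a₆ N D (p, 1) = -(fs F a₂ a₄ a₆ : ℝ) * XF F D -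
      ∑ t : {t : σ → F // ¬ pk (ptOf t) = (p, 1)}, g t.1 := by
    rw [h5, ← htot, ← hsplit]
    ring
  have h7 : |(2 : ℝ) * Ac a₂ a₄ a₆ N D (p, 1)| ≤ 2 * (p : ℕ) * |XF F D| +
      ((p : ℕ) : ℝ) ^ Fintype.card σ * (2 * (p : ℕ)) := by
    rw [h6]
    refine (abs_sub _ _).trans ?_
    rw [abs_mul, abs_neg]
    exact add_le_add (mul_le_mul_of_nonneg_right hfs (abs_nonneg _)) hcomp
  rw [abs_mul, abs_two] at h7
  rw [pow_succ]
  linarith

end Pool.Agent.H126R3
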