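import Mathlib

set_option autoImplicit false

namespace Pool.Agent.H126R3

/-- the prime power attached to a pair -/
def Qc (c : Nat.Primes × ℕ) : ℕ := (c.1 : ℕ) ^ (c.2 + 1)

theorem Qc_pos (c : Nat.Primes × ℕ) : 0 < Qc c := Nat.pow_pos c.1.2.pos

theorem Qc_rpow (c : Nat.Primes × ℕ) (a : ℝ) :
    (Qc c : ℝ) ^ a = ((c.1 : ℕ) : ℝ) ^ (((c.2 + 1 : ℕ) : ℝ) * a) := by
  rw [Qc, Nat.cast_pow, ← Real.rpow_natCast, ← Real.rpow_mul (Nat.cast_nonneg _)]

theorem summable_Q (a : ℝ) (ha : 0 < a) (m : ℕ) (hm : 1 < ((m + 1 : ℕ) : ℝ) * a) :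
    Summable (fun c : Nat.Primes × ℕ => if m ≤ c.2 then (Qc c : ℝ) ^ (-a) else 0) := by
  have h1 : Summable (fun p : Nat.Primes => ((p : ℕ) : ℝ) ^ (-(((m + 1 : ℕ) : ℝ) * a))) :=
    Nat.Primes.summable_rpow.2 (by linarith)
  have h2lt : (2 : ℝ) ^ (-a) < 1 := Real.rpow_lt_one_of_one_lt_of_neg (by norm_num) (by linarith)
  have h2 : Summable (fun k : ℕ => (2 : ℝ) ^ ((m : ℝ) * a) * ((2 : ℝ) ^ (-a)) ^ k) :=
    (summable_geometric_of_lt_one (by positivity) h2lt).mul_left _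
  have h3 := h1.mul_of_nonneg h2 (fun p => by positivity) (fun k => by positivity)
  refine Summable.of_nonneg_of_le (fun c => ?_) (fun c => ?_) h3
  · split_ifs
    · positivity
    · exact le_rfl
  · split_ifs with hc
    · obtain ⟨j, hj⟩ := Nat.exists_eq_add_of_le hc
      have hp2 : (2 : ℝ) ≤ ((c.1 : ℕ) : ℝ) := by exact_mod_cast c.1.2.two_le
      have hp0 : (0 : ℝ) < ((c.1 : ℕ) : ℝ) := by linarith
      rw [Qc_rpow]
      have e1 : ((c.2 + 1 : ℕ) : ℝ) * -a = -(((m + 1 : ℕ) : ℝ) * a) + (-(j : ℝ) * a) := by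
        rw [hj]; push_cast; ring
      rw [e1, Real.rpow_add hp0]
      apply mul_le_mul_of_nonneg_left _ (by positivity)
      have e2 : (2 : ℝ) ^ ((m : ℝ) * a) * ((2 : ℝ) ^ (-a)) ^ c.2 = (2 : ℝ) ^ (-(j : ℝ) * a) := by
        rw [← Real.rpow_natCast, ← Real.rpow_mul (by norm_num), ← Real.rpow_add (by norm_num)]
        congr 1
        rw [hj]; push_cast; ring
      rw [e2]
      apply Real.rpow_le_rpow_of_nonpos (by norm_num) hp2
      have : (0 : ℝ) ≤ j := Nat.cast_nonneg _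
      nlinarith
    · positivity

end Pool.Agent.H126R3
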