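import Pool.Agent.H126R3.AcSum
import Pool.Agent.H126R3.SumQ

set_option autoImplicit false

namespace Pool.Agent.H126R3

open MvPolynomial

theorem qy_Qc {σ : Type} [Finite σ] (c : Nat.Primes × ℕ) (y : Yc (σ := σ) c) : qy y.1 = Qc c := by
  rw [qy_eq, y.2, Qc]

theorem qy_pos {σ : Type} [Finite σ] (y : Pt σ) : 0 < qy y := by
  rw [qy_eq]; exact Nat.pow_pos (pk y).1.2.pos

theorem summable_y {σ : Type} [Fintype σ] (α : ℝ) (hα : (Fintype.card σ : ℝ) + 1 < α) :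
    Summable (fun y : Pt σ => (qy y : ℝ) ^ (-α)) := by
  rw [← (Equiv.sigmaFiberEquiv (pk (σ := σ))).summable_iff]
  have h0 : ∀ w : (Σ c, {y : Pt σ // pk y = c}),
      ((fun y : Pt σ => (qy y : ℝ) ^ (-α)) ∘ (Equiv.sigmaFiberEquiv (pk (σ := σ)))) w =
        (Qc w.1 : ℝ) ^ (-α) := by
    intro w
    rcases w with ⟨c, y⟩
    change (qy y.1 : ℝ) ^ (-α) = _
    rw [qy_Qc c y]
  rw [summable_congr h0, summable_sigma_of_nonneg (fun _ => by positivity)]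
  refine ⟨fun c => (hasSum_fintype _).summable, ?_⟩
  have h1 := summable_Q (α - Fintype.card σ) (by linarith) 0 (by push_cast; linarith)
  refine Summable.of_nonneg_of_le (fun c => tsum_nonneg fun _ => by positivity) (fun c => ?_) h1
  rw [if_pos (Nat.zero_le _), tsum_fintype]
  change ∑ _b : Yc (σ := σ) c, (Qc c : ℝ) ^ (-α) ≤ _
  rw [Finset.sum_const, Finset.card_univ, nsmul_eq_mul]
  have h2 := card_Yc_le (σ := σ) c
  have hQ : (0 : ℝ) < Qc c := by exact_mod_cast Qc_pos c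
  have h3 : ((c.1 : ℕ) : ℝ) ^ ((c.2 + 1) * Fintype.card σ) = (Qc c : ℝ) ^ ((Fintype.card σ : ℕ) : ℝ) := by
    rw [Real.rpow_natCast, Qc, Nat.cast_pow, pow_mul]
  rw [h3] at h2
  calc (Fintype.card (Yc (σ := σ) c) : ℝ) * (Qc c : ℝ) ^ (-α) ≤
      (Qc c : ℝ) ^ ((Fintype.card σ : ℕ) : ℝ) * (Qc c : ℝ) ^ (-α) :=
        mul_le_mul_of_nonneg_right h2 (by positivity)
    _ = (Qc c : ℝ) ^ (-(α - Fintype.card σ)) := by
        rw [← Real.rpow_add hQ]
        congr 1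
        ring

section

variable {σ : Type} [Fintype σ] (a₂ a₄ a₆ N : ℤ) (D : MvPolynomial σ ℤ)

open Classical in
/-- the trace at good points, zero at the others -/
noncomputable def ag (y : Pt σ) : ℝ := if Good N D y then (ay a₂ a₄ a₆ D y : ℝ) else 0

/-- `1 - z` is the local factor -/
noncomputable def zz (y : Pt σ) (s : ℂ) : ℂ :=
  (ag a₂ a₄ a₆ N D y : ℂ) * (qy y : ℂ) ^ (-s) - (qy y : ℂ) ^ (1 - 2 * s)

open Classical in
noncomputable def rho (y : Pt σ) (s : ℂ) : ℂ :=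
  if Good N D y then -Complex.log (1 - zz a₂ a₄ a₆ N D y s) -
    (ag a₂ a₄ a₆ N D y : ℂ) * (qy y : ℂ) ^ (-s) else 0

variable (h2 : 2 ∣ N)

include h2

theorem ag_bound (y : Pt σ) : |ag a₂ a₄ a₆ N D y| ≤ 2 * Real.sqrt (qy y) := by
  classical
  rw [ag]
  split_ifs with h
  · exact ay_bound a₂ a₄ a₆ h2 h
  · rw [abs_zero]; positivity

theorem three_le (y : Pt σ) (hy : Good N D y) : 3 ≤ qy y := by
  have h := good_char h2 hy
  rw [ringChar_eq] at h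
  have h3 : 3 ≤ ((pk y).1 : ℕ) := by
    have := (pk y).1.2.two_le
    rcases Nat.lt_or_ge 2 ((pk y).1 : ℕ) with h' | h'
    · exact h'
    · exact absurd (le_antisymm h' this) h
  rw [qy_eq]
  calc 3 ≤ ((pk y).1 : ℕ) := h3
    _ = ((pk y).1 : ℕ) ^ 1 := (pow_one _).symm
    _ ≤ ((pk y).1 : ℕ) ^ ((pk y).2 + 1) := Nat.pow_le_pow_right (by omega) (by omega)

theorem term_norm (y : Pt σ) (s : ℂ) :
    ‖(ag a₂ a₄ a₆ N D y : ℂ) * (qy y : ℂ) ^ (-s)‖ ≤ 2 * (qy y : ℝ) ^ (-(s.re - 1 / 2)) := by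
  have hq : (0 : ℝ) < qy y := by exact_mod_cast qy_pos y
  rw [norm_mul, Complex.norm_natCast_cpow_of_pos (qy_pos y), Complex.norm_real, Real.norm_eq_abs]
  calc |ag a₂ a₄ a₆ N D y| * (qy y : ℝ) ^ (-s).re ≤ (2 * Real.sqrt (qy y)) * (qy y : ℝ) ^ (-s).re :=
        mul_le_mul_of_nonneg_right (ag_bound a₂ a₄ a₆ N D h2 y) (by positivity)
    _ = 2 * (qy y : ℝ) ^ (-(s.re - 1 / 2)) := by
        rw [Real.sqrt_eq_rpow, mul_assoc, ← Real.rpow_add hq, Complex.neg_re]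
        congr 2
        ring

theorem zz_norm (y : Pt σ) (s : ℂ) (hs : 1 / 2 ≤ s.re) :
    ‖zz a₂ a₄ a₆ N D y s‖ ≤ 3 * (qy y : ℝ) ^ (-(s.re - 1 / 2)) := by
  have hq : (0 : ℝ) < qy y := by exact_mod_cast qy_pos y
  have hq1 : (1 : ℝ) ≤ qy y := by exact_mod_cast qy_pos y
  rw [zz]
  refine (norm_sub_le _ _).trans ?_
  have h1 := term_norm a₂ a₄ a₆ N D h2 y s
  have h3 : ‖(qy y : ℂ) ^ (1 - 2 * s)‖ ≤ (qy y : ℝ) ^ (-(s.re - 1 / 2)) := by
    rw [Complex.norm_natCast_cpow_of_pos (qy_pos y)]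
    apply Real.rpow_le_rpow_of_exponent_le hq1
    simp
    linarith
  linarith

theorem zz_small (y : Pt σ) (hy : Good N D y) (s : ℂ) (hs : 11 / 6 ≤ s.re) :
    ‖zz a₂ a₄ a₆ N D y s‖ ≤ 3 / 4 := by
  refine (zz_norm a₂ a₄ a₆ N D h2 y s (by linarith)).trans ?_
  have hq3 : (3 : ℝ) ≤ qy y := by exact_mod_cast three_le N D h2 y hy
  have h1 : (qy y : ℝ) ^ (-(s.re - 1 / 2)) ≤ (3 : ℝ) ^ (-(4 / 3 : ℝ)) := by
    calc (qy y : ℝ) ^ (-(s.re - 1 / 2)) ≤ (qy y : ℝ) ^ (-(4 / 3 : ℝ)) := by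
          apply Real.rpow_le_rpow_of_exponent_le (by linarith)
          linarith
      _ ≤ (3 : ℝ) ^ (-(4 / 3 : ℝ)) :=
          Real.rpow_le_rpow_of_nonpos (by norm_num) hq3 (by norm_num)
  have h3 : (3 : ℝ) ^ (-(4 / 3 : ℝ)) ≤ 1 / 4 := by
    rw [show (-(4 / 3 : ℝ)) = (-4 : ℝ) * (1 / 3 : ℝ) by norm_num, Real.rpow_mul (by norm_num)]
    have : (3 : ℝ) ^ (-4 : ℝ) = 1 / 81 := by
      rw [Real.rpow_neg (by norm_num)]
      norm_num
    rw [this]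
    have h4 : ((1 / 81 : ℝ) ^ (1 / 3 : ℝ)) ≤ ((1 / 4 : ℝ) ^ (3 : ℝ)) ^ (1 / 3 : ℝ) := by
      apply Real.rpow_le_rpow (by norm_num) _ (by norm_num)
      norm_num
    rw [← Real.rpow_mul (by norm_num)] at h4
    norm_num at h4 ⊢
    exact h4
  linarith

theorem rho_norm (y : Pt σ) (s : ℂ) (hs : 11 / 6 ≤ s.re) :
    ‖rho a₂ a₄ a₆ N D y s‖ ≤ 19 * (qy y : ℝ) ^ (-(2 * s.re - 1)) := by
  classical
  have hq : (0 : ℝ) < qy y := by exact_mod_cast qy_pos y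
  rw [rho]
  split_ifs with h
  · have hz := zz_small a₂ a₄ a₆ N D h2 y h s hs
    have hz' := zz_norm a₂ a₄ a₆ N D h2 y s (by linarith)
    set z := zz a₂ a₄ a₆ N D y s with hzdef
    have h1 : ‖-z‖ < 1 := by rw [norm_neg]; linarith
    have h3 := Complex.norm_log_one_add_sub_self_le h1
    rw [norm_neg] at h3
    have h4 : -Complex.log (1 - z) - (ag a₂ a₄ a₆ N D y : ℂ) * (qy y : ℂ) ^ (-s) =
        -(Complex.log (1 + -z) - -z) - (qy y : ℂ) ^ (1 - 2 * s) := by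
      have h5 : (ag a₂ a₄ a₆ N D y : ℂ) * (qy y : ℂ) ^ (-s) = z + (qy y : ℂ) ^ (1 - 2 * s) := by
        rw [hzdef, zz]; ring
      rw [h5, ← sub_eq_add_neg 1 z]
      ring
    rw [h4]
    refine (norm_sub_le _ _).trans ?_
    rw [norm_neg]
    have h6 : ‖(qy y : ℂ) ^ (1 - 2 * s)‖ = (qy y : ℝ) ^ (-(2 * s.re - 1)) := by
      rw [Complex.norm_natCast_cpow_of_pos (qy_pos y)]
      congr 1
      simp
    have h7 : ‖z‖ ^ 2 ≤ 9 * (qy y : ℝ) ^ (-(2 * s.re - 1)) := by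
      calc ‖z‖ ^ 2 ≤ (3 * (qy y : ℝ) ^ (-(s.re - 1 / 2))) ^ 2 :=
            pow_le_pow_left₀ (norm_nonneg _) hz' 2
        _ = 9 * (qy y : ℝ) ^ (-(2 * s.re - 1)) := by
            rw [mul_pow, ← Real.rpow_natCast ((qy y : ℝ) ^ (-(s.re - 1 / 2))) 2,
              ← Real.rpow_mul hq.le]
            congr 1
            · norm_num
            · congr 1; push_cast; ring
    have h8 : (1 - ‖z‖)⁻¹ ≤ 4 := by
      rw [inv_le_comm₀ (by linarith) (by norm_num)]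
      linarith
    have h9 : ‖z‖ ^ 2 * (1 - ‖z‖)⁻¹ / 2 ≤ 18 * (qy y : ℝ) ^ (-(2 * s.re - 1)) := by
      have : ‖z‖ ^ 2 * (1 - ‖z‖)⁻¹ ≤ (9 * (qy y : ℝ) ^ (-(2 * s.re - 1))) * 4 := by
        apply mul_le_mul h7 h8
        · rw [inv_nonneg]; linarith
        · positivity
      linarith
    linarith
  · rw [norm_zero]; positivity

theorem rho_diff (y : Pt σ) (s : ℂ) (hs : 11 / 6 ≤ s.re) :
    DifferentiableAt ℂ (rho a₂ a₄ a₆ N D y) s := by
  classical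
  have hq : (qy y : ℂ) ≠ 0 := by exact_mod_cast (qy_pos y).ne'
  by_cases h : Good N D y
  · have h1 : rho a₂ a₄ a₆ N D y = fun s => -Complex.log (1 - zz a₂ a₄ a₆ N D y s) -
        (ag a₂ a₄ a₆ N D y : ℂ) * (qy y : ℂ) ^ (-s) := by
      funext s; rw [rho, if_pos h]
    rw [h1]
    have hz := zz_small a₂ a₄ a₆ N D h2 y h s hs
    have d1 : DifferentiableAt ℂ (fun s : ℂ => (qy y : ℂ) ^ (-s)) s :=
      (differentiableAt_id.neg).const_cpow (Or.inl hq)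
    have d2 : DifferentiableAt ℂ (fun s : ℂ => (qy y : ℂ) ^ (1 - 2 * s)) s :=
      ((differentiableAt_const _).sub ((differentiableAt_const _).mul differentiableAt_id)).const_cpow
        (Or.inl hq)
    have d3 : DifferentiableAt ℂ (zz a₂ a₄ a₆ N D y) s := ((differentiableAt_const _).mul d1).sub d2
    have hsl : 1 - zz a₂ a₄ a₆ N D y s ∈ Complex.slitPlane := by
      rw [sub_eq_add_neg]
      apply Complex.mem_slitPlane_of_norm_lt_one
      rw [norm_neg]; linarith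
    exact ((((differentiableAt_const _).sub d3).clog hsl).neg).sub ((differentiableAt_const _).mul d1)
  · have h1 : rho a₂ a₄ a₆ N D y = fun _ => 0 := by
      funext s; rw [rho, if_neg h]
    rw [h1]
    exact differentiableAt_const _

end

end Pool.Agent.H126R3
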