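import Mathlib

set_option autoImplicit false

namespace Pool.Agent.H126R3

open MvPolynomial

/-- the closed points of affine space `Spec ℤ[t_i : i ∈ σ]`: the maximal ideals of the ring -/
abbrev Pt (σ : Type) : Type := MaximalSpectrum (MvPolynomial σ ℤ)

/-- the residue field of a closed point -/
abbrev Res {σ : Type} (y : Pt σ) : Type := MvPolynomial σ ℤ ⧸ y.asIdeal

noncomputable instance resField {σ : Type} (y : Pt σ) : Field (Res y) :=
  Ideal.Quotient.field y.asIdeal

/-- the norm `q_y` of a closed point: the cardinality of its residue field -/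
noncomputable def qy {σ : Type} (y : Pt σ) : ℕ := Nat.card (Res y)

theorem jac_int : IsJacobsonRing ℤ := by
  rw [isJacobsonRing_iff_prime_eq]
  intro P hP
  by_cases h : P = ⊥
  · subst h
    rw [eq_bot_iff]
    intro x hx
    rw [Ideal.mem_jacobson_bot] at hx
    have h1 := hx x
    rw [Int.isUnit_iff] at h1
    rw [Ideal.mem_bot]
    rcases h1 with h1 | h1
    · have : x * x = 0 := by linarith
      exact mul_self_eq_zero.1 this
    · exfalso
      nlinarith [mul_self_nonneg x]
  · have : P.IsMaximal := IsPrime.to_maximal_ideal h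
    exact Ideal.jacobson_eq_self_of_isMaximal

/-- a field that is finitely generated as a ring is finite -/
theorem finite_of_finiteType (κ : Type) [Field κ] [i : Algebra ℤ κ] [Algebra.FiniteType ℤ κ] :
    Finite κ := by
  obtain rfl : i = Ring.toIntAlgebra κ := Subsingleton.elim _ _
  have := jac_int
  have hfin : Module.Finite ℤ κ := finite_of_finite_type_of_isJacobsonRing ℤ κ
  have hp0 : ringChar κ ≠ 0 := by
    intro h0
    have hc : CharZero κ := (CharP.charP_zero_iff_charZero κ).1 (ringChar.of_eq h0)
    have hinj : Function.Injective (algebraMap ℤ κ) := by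
      have : (algebraMap ℤ κ) = Int.castRingHom κ := RingHom.ext_int _ _
      rw [this]
      exact RingHom.injective_int _
    have hint : Algebra.IsIntegral ℤ κ := Algebra.IsIntegral.of_finite ℤ κ
    exact Int.not_isField (isField_of_isIntegral_of_isField hinj (Field.toIsField κ))
  have hprime : Fact (ringChar κ).Prime := by
    rcases CharP.char_is_prime_or_zero κ (ringChar κ) with h | h
    · exact ⟨h⟩
    · exact absurd h hp0
  let _ := ZMod.algebra κ (ringChar κ)
  have : IsScalarTower ℤ (ZMod (ringChar κ)) κ := by
    refine IsScalarTower.of_algebraMap_eq' (RingHom.ext_int _ _)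
  have : Module.Finite (ZMod (ringChar κ)) κ := Module.Finite.of_restrictScalars_finite ℤ _ κ
  exact Module.finite_of_finite (ZMod (ringChar κ))

instance finite_res {σ : Type} [Finite σ] (y : Pt σ) : Finite (Res y) := by
  have : Algebra.FiniteType ℤ (Res y) :=
    Algebra.FiniteType.of_surjective (Ideal.Quotient.mkₐ ℤ y.asIdeal) Ideal.Quotient.mk_surjective
  exact finite_of_finiteType (Res y)

/-- the closed point below a point with coordinates in a finite field -/
noncomputable def ptOf {σ : Type} {F : Type} [Field F] [Finite F] (t : σ → F) : Pt σ where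
  asIdeal := RingHom.ker (aeval (R := ℤ) t)
  isMaximal := by
    have hP : (RingHom.ker (aeval (R := ℤ) t)).IsPrime := RingHom.ker_isPrime _
    have : Finite (MvPolynomial σ ℤ ⧸ RingHom.ker (aeval (R := ℤ) t)) :=
      Finite.of_injective _ (RingHom.kerLift_injective (aeval (R := ℤ) t : MvPolynomial σ ℤ →ₐ[ℤ] F).toRingHom)
    exact Ideal.Quotient.maximal_of_isField _ (Finite.isField_of_domain _)

theorem mem_ptOf {σ : Type} {F : Type} [Field F] [Finite F] (t : σ → F) (P : MvPolynomial σ ℤ) :
    P ∈ (ptOf t).asIdeal ↔ aeval (R := ℤ) t P = 0 := by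
  rw [ptOf, RingHom.mem_ker]

/-- points with coordinates in `F` above the closed point `y` correspond to embeddings -/
noncomputable def fiberEquiv {σ : Type} {F : Type} [Field F] [Finite F] (y : Pt σ) :
    {t : σ → F // ptOf t = y} ≃ (Res y →+* F) where
  toFun t := Ideal.Quotient.lift y.asIdeal ((aeval (R := ℤ) t.1 : MvPolynomial σ ℤ →ₐ[ℤ] F) : MvPolynomial σ ℤ →+* F)
    (fun P hP => by
      rw [← t.2, mem_ptOf] at hP
      exact hP)
  invFun φ := ⟨fun i => φ (Ideal.Quotient.mk y.asIdeal (X i)), by
    have h1 : ∀ P, aeval (R := ℤ) (fun i => φ (Ideal.Quotient.mk y.asIdeal (X i))) P =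
        φ (Ideal.Quotient.mk y.asIdeal P) := by
      intro P
      have h2 : ((aeval (R := ℤ) (fun i => φ (Ideal.Quotient.mk y.asIdeal (X i))) :
          MvPolynomial σ ℤ →ₐ[ℤ] F) : MvPolynomial σ ℤ →+* F) = φ.comp (Ideal.Quotient.mk y.asIdeal) := by
        apply MvPolynomial.ringHom_ext
        · intro r; simp
        · intro i; simp
      exact congrArg (fun g => g P) h2
    apply MaximalSpectrum.ext
    ext P
    rw [mem_ptOf, h1, map_eq_zero, Ideal.Quotient.eq_zero_iff_mem]⟩
  left_inv t := by
    apply Subtype.ext
    funext i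
    change (aeval (R := ℤ) t.1) (X i) = t.1 i
    simp
  right_inv φ := by
    apply Ideal.Quotient.ringHom_ext
    apply MvPolynomial.ringHom_ext
    · intro r; simp
    · intro i
      change (aeval (R := ℤ) (fun i => φ (Ideal.Quotient.mk y.asIdeal (X i)))) (X i) = _
      simp

end Pool.Agent.H126R3
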