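import Pool.Agent.H126R3.Val

set_option autoImplicit false

namespace Pool.Agent.H126R3

open Polynomial

/-- over an algebraically closed field every nonzero polynomial is a constant, times the product of
`X - a` over its roots of odd multiplicity, times a square -/
theorem odd_part {L : Type*} [Field L] [IsAlgClosed L] [DecidableEq L] (G : L[X]) (hG : G ≠ 0)
    (Z : Finset L) (hZ : ∀ a, Odd (G.rootMultiplicity a) ↔ a ∈ Z) :
    ∃ (c : L) (S : L[X]), c ≠ 0 ∧ S ≠ 0 ∧ G = C c * (∏ z ∈ Z, (X - C z)) * S ^ 2 := by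
  have hs := IsAlgClosed.splits G
  have h1 := hs.eq_prod_roots
  set s := G.roots.toFinset with hsdef
  refine ⟨G.leadingCoeff, ∏ a ∈ s, (X - C a) ^ (G.rootMultiplicity a / 2),
    leadingCoeff_ne_zero.2 hG, ?_, ?_⟩
  · rw [Finset.prod_ne_zero_iff]
    intro a _
    exact pow_ne_zero _ (X_sub_C_ne_zero a)
  · conv_lhs => rw [h1]
    rw [mul_assoc]
    congr 1
    have hZs : Z ⊆ s := by
      intro a ha
      have h2 := (hZ a).2 ha
      rw [hsdef, Multiset.mem_toFinset, mem_roots hG]
      by_contra h3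
      rw [rootMultiplicity_eq_zero h3] at h2
      exact absurd h2 (by decide)
    rw [Finset.prod_multiset_map_count, ← Finset.prod_pow]
    have h4 : ∏ z ∈ Z, (X - C z) = ∏ z ∈ s, if z ∈ Z then (X - C z) else 1 := by
      rw [← Finset.prod_subset hZs]
      · exact Finset.prod_congr rfl fun z hz => by rw [if_pos hz]
      · intro z _ hz; rw [if_neg hz]
    rw [h4, ← Finset.prod_mul_distrib]
    apply Finset.prod_congr rfl
    intro a _
    rw [count_roots]
    have h5 := hZ a
    split_ifs with h6
    · obtain ⟨k, hk⟩ := h5.2 h6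
      rw [hk, show (2 * k + 1) / 2 = k by omega, ← pow_mul]
      ring
    · have h7 : Even (G.rootMultiplicity a) := by
        rw [← Nat.not_odd_iff_even]; exact fun h => h6 (h5.1 h)
      obtain ⟨k, hk⟩ := h7
      rw [hk, show (k + k) / 2 = k by omega, ← pow_mul]
      ring

variable {L : Type*} [Field L] [IsAlgClosed L] (O : ValuationSubring L)

/-- an integral polynomial with nonzero reduction whose roots of odd multiplicity are integral -/
theorem odd_part_int [DecidableEq L] (G : O[X]) (hred : G.map (IsLocalRing.residue O) ≠ 0)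
    (Z : Finset O) (hZ : ∀ a : L, Odd ((G.map (algebraMap O L)).rootMultiplicity a) ↔
      ∃ z ∈ Z, (z : L) = a) :
    ∃ (c : O) (S : O[X]), IsUnit c ∧ S.map (IsLocalRing.residue O) ≠ 0 ∧
      G = C c * (∏ z ∈ Z, (X - C z)) * S ^ 2 := by
  have hG : G.map (algebraMap O L) ≠ 0 := by
    intro h
    apply hred
    have : G = 0 := map_inj O (by rw [h, Polynomial.map_zero])
    rw [this, Polynomial.map_zero]
  obtain ⟨c, S, hc, hS, h1⟩ := odd_part (G.map (algebraMap O L)) hG (Z.image (fun z : O => (z : L)))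
    (by intro a; rw [hZ a, Finset.mem_image])
  obtain ⟨c', S', hc', hS', hSr⟩ := prim_scale O S hS
  have himg : ∏ z ∈ Z.image (fun z : O => (z : L)), (X - C z) =
      (∏ z ∈ Z, (X - C z)).map (algebraMap O L) := by
    rw [Finset.prod_image (fun a _ b _ h => Subtype.val_injective h), Polynomial.map_prod]
    apply Finset.prod_congr rfl
    intro z _
    simp only [Polynomial.map_sub, map_X, map_C]
    rfl
  rw [himg, hS'] at h1
  set P : O[X] := (∏ z ∈ Z, (X - C z)) * S' ^ 2 with hP
  have h2 : G.map (algebraMap O L) = P.map (algebraMap O L) * C (c * c' ^ 2) := by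
    rw [h1, hP]
    simp only [Polynomial.map_mul, Polynomial.map_pow, C_mul, C_pow]
    ring
  have hPr : P.map (IsLocalRing.residue O) ≠ 0 := by
    rw [hP, Polynomial.map_mul, Polynomial.map_pow, Polynomial.map_prod]
    refine mul_ne_zero ?_ (pow_ne_zero _ hSr)
    rw [Finset.prod_ne_zero_iff]
    intro z _
    simp only [Polynomial.map_sub, map_X, map_C]
    exact X_sub_C_ne_zero _
  obtain ⟨M₀, hM₀⟩ := gauss_div O G P _ h2 hPr
  have h3 : ∃ c₀ : O, M₀ = C c₀ ∧ algebraMap O L c₀ = c * c' ^ 2 := by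
    refine ⟨M₀.coeff 0, ?_, ?_⟩
    · apply map_inj O
      rw [← hM₀, map_C, ← coeff_map, ← hM₀, coeff_C_zero]
    · rw [← coeff_map, ← hM₀, coeff_C_zero]
  obtain ⟨c₀, hc₀, hc₁⟩ := h3
  have h4 : G = C c₀ * P := by
    apply map_inj O
    rw [h2, hM₀, hc₀, mul_comm, ← Polynomial.map_mul]
  refine ⟨c₀, S', ?_, hSr, ?_⟩
  · rw [← IsLocalRing.residue_ne_zero_iff_isUnit]
    intro h5
    apply hred
    rw [h4, Polynomial.map_mul, map_C, h5, C_0, zero_mul]
  · rw [h4, hP, mul_assoc]

/-- parity of the multiplicity of the reduction of a point of `Z` -/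
theorem red_parity [DecidableEq L] (Z : Finset O)
    (hZinj : ∀ z ∈ Z, ∀ w ∈ Z, IsLocalRing.residue O z = IsLocalRing.residue O w → z = w)
    (Y : Finset O) (hY : Y ⊆ Z) (c : O) (hc : IsUnit c) (S : O[X])
    (hS : S.map (IsLocalRing.residue O) ≠ 0) (z : O) (hz : z ∈ Z) :
    Odd (((C c * (∏ z ∈ Y, (X - C z)) * S ^ 2 : O[X]).map
      (IsLocalRing.residue O)).rootMultiplicity (IsLocalRing.residue O z)) ↔ z ∈ Y := by
  classical
  have hc' : IsLocalRing.residue O c ≠ 0 := (IsLocalRing.residue_ne_zero_iff_isUnit _).2 hc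
  have h1 : (∏ z ∈ Y, (X - C z : O[X])).map (IsLocalRing.residue O) =
      ∏ z ∈ Y, (X - C (IsLocalRing.residue O z)) := by
    rw [Polynomial.map_prod]
    apply Finset.prod_congr rfl
    intro w _
    simp only [Polynomial.map_sub, map_X, map_C]
  have h2 : ∏ z ∈ Y, (X - C (IsLocalRing.residue O z)) ≠ 0 := by
    rw [Finset.prod_ne_zero_iff]
    intro w _
    exact X_sub_C_ne_zero _
  have h3 : ∀ Y' : Finset O, Y' ⊆ Z → (∏ z ∈ Y', (X - C (IsLocalRing.residue O z))).rootMultiplicity
      (IsLocalRing.residue O z) = if z ∈ Y' then 1 else 0 := by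
    intro Y'
    induction Y' using Finset.induction_on with
    | empty => intro _; simp
    | insert w Y' hw ih =>
      intro hsub
      have hw' : w ∈ Z := hsub (Finset.mem_insert_self _ _)
      rw [Finset.prod_insert hw, rootMultiplicity_mul, ih (fun a ha => hsub (Finset.mem_insert_of_mem ha)),
        rootMultiplicity_X_sub_C]
      · by_cases hzw : z = w
        · subst hzw
          simp [hw]
        · have : IsLocalRing.residue O z ≠ IsLocalRing.residue O w := fun h => hzw (hZinj z hz w hw' h)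
          rw [if_neg this]
          simp [hzw]
      · refine mul_ne_zero (X_sub_C_ne_zero _) ?_
        rw [Finset.prod_ne_zero_iff]
        intro w _
        exact X_sub_C_ne_zero _
  have hCne : (C (IsLocalRing.residue O c) : (IsLocalRing.ResidueField O)[X]) ≠ 0 := by
    simpa using hc'
  rw [Polynomial.map_mul, Polynomial.map_mul, Polynomial.map_pow, map_C, h1,
    rootMultiplicity_mul (mul_ne_zero (mul_ne_zero hCne h2) (pow_ne_zero _ hS)),
    rootMultiplicity_mul (mul_ne_zero hCne h2), rootMultiplicity_C, h3 Y hY, sq,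
    rootMultiplicity_mul (mul_ne_zero hS hS), zero_add]
  split_ifs with h
  · simp only [h, iff_true]
    exact ⟨_, by ring⟩
  · simp only [h, iff_false, zero_add]
    rw [Nat.not_odd_iff_even]
    exact ⟨_, rfl⟩

end Pool.Agent.H126R3
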