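import Pool.Agent.H126R3.Descent

set_option autoImplicit false

namespace Pool.Agent.H126R3

open Polynomial

variable {L : Type*} [Field L] (O : ValuationSubring L)

/-- removing the common factor -/
theorem strip_gcd (A B : O[X]) (hA : A.map (IsLocalRing.residue O) ≠ 0)
    (hB : B.map (IsLocalRing.residue O) = 0) :
    ∃ g A₁ B₁ : O[X], A = g * A₁ ∧ B = g * B₁ ∧ g.map (IsLocalRing.residue O) ≠ 0 ∧
      A₁.map (IsLocalRing.residue O) ≠ 0 ∧ B₁.map (IsLocalRing.residue O) = 0 ∧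
      IsCoprime (A₁.map (algebraMap O L)) (B₁.map (algebraMap O L)) := by
  classical
  set a := A.map (algebraMap O L) with ha
  set b := B.map (algebraMap O L) with hb
  have ha0 : a ≠ 0 := by
    intro h
    apply hA
    have : A = 0 := map_inj O (by rw [← ha, h, Polynomial.map_zero])
    rw [this, Polynomial.map_zero]
  obtain ⟨A', hA'⟩ := EuclideanDomain.gcd_dvd_left a b
  obtain ⟨B', hB'⟩ := EuclideanDomain.gcd_dvd_right a b
  obtain ⟨x, y, hxy⟩ : ∃ x y, EuclideanDomain.gcd a b = a * x + b * y :=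
    ⟨_, _, EuclideanDomain.gcd_eq_gcd_ab a b⟩
  generalize EuclideanDomain.gcd a b = G at hA' hB' hxy
  have hG0 : G ≠ 0 := by
    intro h; rw [h, zero_mul] at hA'; exact ha0 hA'
  obtain ⟨c, g, hc, hGg, hgr⟩ := prim_scale O G hG0
  have h1 : a = g.map (algebraMap O L) * (C c * A') := by rw [hA', hGg]; ring
  have h2 : b = g.map (algebraMap O L) * (C c * B') := by rw [hB', hGg]; ring
  obtain ⟨A₁, hA₁⟩ := gauss_div O A g _ (ha ▸ h1) hgr
  obtain ⟨B₁, hB₁⟩ := gauss_div O B g _ (hb ▸ h2) hgr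
  have hAA : A = g * A₁ := map_inj O (by rw [Polynomial.map_mul, ← hA₁, ← h1])
  have hBB : B = g * B₁ := map_inj O (by rw [Polynomial.map_mul, ← hB₁, ← h2])
  refine ⟨g, A₁, B₁, hAA, hBB, hgr, ?_, ?_, ?_⟩
  · intro h; apply hA; rw [hAA, Polynomial.map_mul, h, mul_zero]
  · rw [hBB, Polynomial.map_mul] at hB
    exact (mul_eq_zero.1 hB).resolve_left hgr
  · rw [← hA₁, ← hB₁]
    refine ⟨C c⁻¹ * x, C c⁻¹ * y, ?_⟩
    have h3 : G * 1 = G * (A' * x + B' * y) := by
      linear_combination hxy + x * hA' + y * hB'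
    have h4 := mul_left_cancel₀ hG0 h3
    have h5 : (C c⁻¹ * C c : L[X]) = 1 := by rw [← C_mul, inv_mul_cancel₀ hc, C_1]
    linear_combination (-1 : L[X]) * h4 + (A' * x + B' * y) * h5

/-- square roots of integral elements are integral -/
theorem exists_sqrt [IsAlgClosed L] (c : O) : ∃ γ : O, γ ^ 2 = c := by
  obtain ⟨γ, hγ⟩ := IsAlgClosed.exists_pow_nat_eq (c : L) (n := 2) (by norm_num)
  have h1 : γ ∈ O := by
    rw [← ValuationSubring.valuation_le_one_iff]
    have h2 : O.valuation (γ ^ 2) ≤ 1 := by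
      rw [ValuationSubring.valuation_le_one_iff, hγ]; exact c.2
    rw [map_pow] at h2
    by_contra h3
    exact absurd h2 (not_le.2 (one_lt_pow₀ (not_le.1 h3) (by norm_num)))
  exact ⟨⟨γ, h1⟩, Subtype.ext hγ⟩

end Pool.Agent.H126R3
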