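import Pool.Agent.H126R3.NoDescent

set_option autoImplicit false

namespace Pool.Agent.H126R3

open Polynomial

/-- a valuation ring of `L` dominating the localisation of `R` at the prime element `q` -/
theorem exists_dominating {R : Type*} [CommRing R] [IsDomain R] (q : R) (hq : Prime q)
    {L : Type*} [Field L] [Algebra R L] [FaithfulSMul R L] :
    ∃ (O : ValuationSubring L) (ψ : R →+* O), (∀ r, algebraMap O L (ψ r) = algebraMap R L r) ∧
      ∀ r, IsUnit (ψ r) ↔ ¬ q ∣ r := by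
  have hP : (Ideal.span {q}).IsPrime := (Ideal.span_singleton_prime hq.ne_zero).2 hq
  have hinj : Function.Injective (algebraMap R L) := FaithfulSMul.algebraMap_injective R L
  have hg : ∀ y : (Ideal.span {q}).primeCompl, IsUnit (algebraMap R L y) := by
    intro y
    rw [isUnit_iff_ne_zero, Ne, map_eq_zero_iff _ hinj]
    intro h
    exact y.2 (by rw [h]; exact Ideal.zero_mem _)
  set f : Localization.AtPrime (Ideal.span {q}) →+* L := IsLocalization.lift hg with hf
  obtain ⟨O, hO, hloc⟩ := IsLocalRing.exists_factor_valuationRing f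
  set F : Localization.AtPrime (Ideal.span {q}) →+* O := f.codRestrict O.toSubring hO with hF
  refine ⟨O, F.comp (algebraMap R _), ?_, ?_⟩
  · intro r
    change f (algebraMap R _ r) = _
    rw [hf, IsLocalization.lift_eq]
  · intro r
    have h1 : IsUnit (F (algebraMap R _ r)) ↔ IsUnit (algebraMap R (Localization.AtPrime (Ideal.span {q})) r) :=
      ⟨fun h => hloc.map_nonunit _ h, fun h => h.map F⟩
    rw [RingHom.comp_apply, h1, IsLocalization.AtPrime.isUnit_to_map_iff _ (Ideal.span {q})]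
    rw [Ideal.mem_primeCompl_iff, Ideal.mem_span_singleton]

variable {L : Type*} [Field L] [IsAlgClosed L] (O : ValuationSubring L)

/-- the case of reduction to a point of order two -/
theorem two_torsion_red [DecidableEq L] (h2 : IsUnit (2 : O))
    (e₁ e₂ e₃ : O) (h12 : IsUnit (e₁ - e₂)) (h13 : IsUnit (e₁ - e₃)) (h23 : IsUnit (e₂ - e₃))
    (Z : Finset O) (hZne : Z.Nonempty)
    (hZinj : ∀ z ∈ Z, ∀ w ∈ Z, IsLocalRing.residue O z = IsLocalRing.residue O w → z = w)
    (A B : O[X]) (hb : B.map (IsLocalRing.residue O) ≠ 0)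
    (hab : A.map (IsLocalRing.residue O) = C (IsLocalRing.residue O e₁) * B.map (IsLocalRing.residue O))
    (hQ : Quart e₁ e₂ e₃ A B ≠ 0)
    (hpar : ∀ a : L, Odd (((Quart e₁ e₂ e₃ A B).map (algebraMap O L)).rootMultiplicity a) ↔
      ∃ z ∈ Z, (z : L) = a) : False := by
  set c : O := (e₁ - e₂) * (e₁ - e₃) with hc
  have hcu : IsUnit c := h12.mul h13
  set A₁ : O[X] := C e₁ * (A - C e₁ * B) + C c * B with hA₁
  set B₁ : O[X] := A - C e₁ * B with hB₁
  have hB₁r : B₁.map (IsLocalRing.residue O) = 0 := by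
    rw [hB₁, Polynomial.map_sub, Polynomial.map_mul, map_C, hab, sub_self]
  have hid : Quart e₁ e₂ e₃ A₁ B₁ = C (c ^ 2) * Quart e₁ e₂ e₃ A B := by
    rw [Quart, Quart, hA₁, hB₁, hc]
    simp only [C_mul, C_sub, C_pow]
    ring
  have hc0 : (C (c ^ 2) : O[X]) ≠ 0 := by
    rw [Ne, C_eq_zero]
    intro h
    have := hcu.pow 2
    rw [h] at this
    exact not_isUnit_zero this
  refine no_descent O h2 e₁ e₂ e₃ h12 h13 h23 Z hZne hZinj (max A₁.natDegree B₁.natDegree) A₁ B₁
    (le_max_left _ _) (le_max_right _ _) ?_ hB₁r ?_ ?_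
  · rw [hA₁, Polynomial.map_add, Polynomial.map_mul, hB₁r, mul_zero, zero_add,
      Polynomial.map_mul, map_C]
    refine mul_ne_zero ?_ hb
    rw [Ne, C_eq_zero]
    exact (IsLocalRing.residue_ne_zero_iff_isUnit _).2 hcu
  · intro h
    apply hQ
    rw [Quart, ← hB₁, h]
    ring
  · intro a
    rw [← hpar a, hid, Polynomial.map_mul, map_C, rootMultiplicity_mul, rootMultiplicity_C, zero_add]
    exact mul_ne_zero (by rw [← map_C]; exact map_ne_zero_of_ne O hc0) (map_ne_zero_of_ne O hQ)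

/-- roots of a polynomial with unit leading coefficient are integral -/
theorem root_integral (g : O[X]) (hlc : IsUnit g.leadingCoeff) (a : L)
    (ha : (g.map (algebraMap O L)).eval a = 0) : ∃ z : O, (z : L) = a := by
  obtain ⟨w, hw⟩ := hlc
  have hmon : (C ((w⁻¹ : Oˣ) : O) * g).Monic := by
    rw [Monic, leadingCoeff_mul, leadingCoeff_C, ← hw, Units.inv_mul]
  have hint : IsIntegral O a := by
    refine ⟨_, hmon, ?_⟩
    rw [eval₂_mul, eval₂_eq_eval_map (p := g), ha, mul_zero]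
  obtain ⟨z, hz⟩ := IsIntegrallyClosed.algebraMap_eq_of_integral hint
  exact ⟨z, hz⟩

theorem cubic_ext {R : Type*} [CommRing R] {p q r p' q' r' : R}
    (h : (X ^ 3 + C p * X ^ 2 + C q * X + C r : R[X]) = X ^ 3 + C p' * X ^ 2 + C q' * X + C r') :
    p = p' ∧ q = q' ∧ r = r' := by
  refine ⟨?_, ?_, ?_⟩
  · have := congrArg (fun P => coeff P 2) h
    simpa [coeff_X, coeff_C] using this
  · have := congrArg (fun P => coeff P 1) h
    simpa [coeff_X, coeff_C] using this
  · have := congrArg (fun P => coeff P 0) h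
    simpa [coeff_X, coeff_C] using this

/-- the three roots of a monic cubic -/
theorem cubic_roots (a₂ a₄ a₆ : O) : ∃ e₁ e₂ e₃ : O, a₂ = -(e₁ + e₂ + e₃) ∧
    a₄ = e₁ * e₂ + e₁ * e₃ + e₂ * e₃ ∧ a₆ = -(e₁ * e₂ * e₃) := by
  have key : ∀ g : O[X], g.Monic → 0 < g.natDegree → ∃ e : O, ∃ g' : O[X], g'.Monic ∧
      g = (X - C e) * g' := by
    intro g hg hd
    have hd' : (g.map (algebraMap O L)).degree ≠ 0 := by
      rw [hg.degree_map, Polynomial.degree_eq_natDegree hg.ne_zero]
      exact_mod_cast hd.ne'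
    obtain ⟨a, ha⟩ := IsAlgClosed.exists_root _ hd'
    obtain ⟨e, he⟩ := root_integral O g (by rw [hg.leadingCoeff]; exact isUnit_one) a ha
    have hroot : g.eval e = 0 := by
      apply alg_inj O
      rw [map_zero, ← ha.eq_zero, eval_map, ← he, ← eval₂_at_apply]
      rfl
    obtain ⟨g', hg'⟩ := dvd_iff_isRoot.2 hroot
    refine ⟨e, g', ?_, hg'⟩
    have := hg
    rw [hg'] at this
    exact (monic_X_sub_C e).of_mul_monic_left this
  set g : O[X] := X ^ 3 + C a₂ * X ^ 2 + C a₄ * X + C a₆ with hg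
  have hgm : g.Monic := by rw [hg]; monicity!
  have hgd : g.natDegree = 3 := by rw [hg]; compute_degree!
  obtain ⟨e₁, g₁, hm₁, h1⟩ := key g hgm (by omega)
  have hd1 : g₁.natDegree = 2 := by
    have := hgd
    rw [h1, (monic_X_sub_C e₁).natDegree_mul hm₁, natDegree_X_sub_C] at this
    omega
  obtain ⟨e₂, g₂, hm₂, h2⟩ := key g₁ hm₁ (by omega)
  have hd2 : g₂.natDegree = 1 := by
    have := hd1
    rw [h2, (monic_X_sub_C e₂).natDegree_mul hm₂, natDegree_X_sub_C] at this
    omega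
  obtain ⟨e₃, g₃, hm₃, h3⟩ := key g₂ hm₂ (by omega)
  have hd3 : g₃.natDegree = 0 := by
    have := hd2
    rw [h3, (monic_X_sub_C e₃).natDegree_mul hm₃, natDegree_X_sub_C] at this
    omega
  have hg3 : g₃ = 1 := by
    have h5 := eq_C_of_natDegree_eq_zero hd3
    have h6 : g₃.leadingCoeff = 1 := hm₃
    rw [leadingCoeff, hd3] at h6
    rw [h5, h6, C_1]
  have hall : X ^ 3 + C a₂ * X ^ 2 + C a₄ * X + C a₆ =
      X ^ 3 + C (-(e₁ + e₂ + e₃)) * X ^ 2 + C (e₁ * e₂ + e₁ * e₃ + e₂ * e₃) * X +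
        C (-(e₁ * e₂ * e₃)) := by
    rw [← hg, h1, h2, h3, hg3]
    simp only [C_neg, C_add, C_mul]
    ring
  obtain ⟨i1, i2, i3⟩ := cubic_ext hall
  exact ⟨e₁, e₂, e₃, i1, i2, i3⟩

end Pool.Agent.H126R3
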