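import Pool.Agent.H126R3.Trace

set_option autoImplicit false

namespace Pool.Agent.H126R3

open MvPolynomial

theorem exists_pk {σ : Type} [Finite σ] (y : Pt σ) : ∃ c : Nat.Primes × ℕ,
    qy y = (c.1 : ℕ) ^ (c.2 + 1) ∧ ringChar (Res y) = c.1 := by
  have := Fintype.ofFinite (Res y)
  obtain ⟨n, hp, hn⟩ := FiniteField.card (Res y) (ringChar (Res y))
  refine ⟨(⟨_, hp⟩, n - 1), ?_, rfl⟩
  rw [qy, Nat.card_eq_fintype_card, hn]
  have : (n : ℕ) - 1 + 1 = n := Nat.sub_add_cancel n.pos
  simp only [this]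

/-- the pair `(p, k)` such that the residue field has `p ^ (k + 1)` elements -/
noncomputable def pk {σ : Type} [Finite σ] (y : Pt σ) : Nat.Primes × ℕ := (exists_pk y).choose

theorem qy_eq {σ : Type} [Finite σ] (y : Pt σ) : qy y = ((pk y).1 : ℕ) ^ ((pk y).2 + 1) :=
  (exists_pk y).choose_spec.1

theorem ringChar_eq {σ : Type} [Finite σ] (y : Pt σ) : ringChar (Res y) = (pk y).1 :=
  (exists_pk y).choose_spec.2

theorem pair_unique {c d : Nat.Primes × ℕ} (h : (c.1 : ℕ) ^ (c.2 + 1) = (d.1 : ℕ) ^ (d.2 + 1)) :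
    c = d := by
  have h1 : (c.1 : ℕ) = d.1 := by
    have : (c.1 : ℕ) ∣ (d.1 : ℕ) ^ (d.2 + 1) := by rw [← h]; exact dvd_pow_self _ (by omega)
    exact (Nat.prime_dvd_prime_iff_eq c.1.2 d.1.2).1 (c.1.2.dvd_of_dvd_pow this)
  have h2 : c.2 + 1 = d.2 + 1 := by
    rw [h1] at h
    exact Nat.pow_right_injective d.1.2.two_le h
  exact Prod.ext (Subtype.ext h1) (by omega)

theorem pk_eq_of {σ : Type} [Finite σ] (y : Pt σ) (p : Nat.Primes) (k : ℕ)
    (h : qy y = (p : ℕ) ^ (k + 1)) : pk y = (p, k) := by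
  apply pair_unique
  rw [← qy_eq, h]

/-- the number of endomorphisms of a finite field -/
theorem card_ringHom (F : Type) [Field F] [Fintype F] (p k : ℕ) [hp : Fact p.Prime]
    (h : Fintype.card F = p ^ (k + 1)) : Nat.card (F →+* F) = k + 1 := by
  have hc : CharP F p := charP_of_card_eq_prime_pow h
  let _ := ZMod.algebra F p
  have hfin : Module.finrank (ZMod p) F = k + 1 := by
    have h1 := Module.card_eq_pow_finrank (K := ZMod p) (V := F)
    rw [h, ZMod.card] at h1
    exact (Nat.pow_right_injective hp.out.two_le h1).symm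
  have e : (F →+* F) ≃ (F ≃ₐ[ZMod p] F) :=
    { toFun := fun φ => AlgEquiv.ofBijective
        ({ toRingHom := φ, commutes' := fun r => by
            have : φ.comp (algebraMap (ZMod p) F) = algebraMap (ZMod p) F := Subsingleton.elim _ _
            exact congrArg (fun g => g r) this } : F →ₐ[ZMod p] F)
        (Finite.injective_iff_bijective.1 φ.injective)
      invFun := fun φ => (φ : F →+* F)
      left_inv := fun φ => by ext x; rfl
      right_inv := fun φ => by ext x; rfl }
  rw [Nat.card_congr e, IsGalois.card_aut_eq_finrank, hfin]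

/-- the number of points of `F^σ` above a closed point of norm `#F` -/
theorem card_fiber {σ : Type} [Finite σ] (y : Pt σ) (F : Type) [Field F] [Fintype F]
    (p : Nat.Primes) (k : ℕ) (h : Fintype.card F = (p : ℕ) ^ (k + 1)) (hy : pk y = (p, k)) :
    Nat.card {t : σ → F // ptOf t = y} = k + 1 := by
  have := Fintype.ofFinite (Res y)
  have hc : Fintype.card (Res y) = Fintype.card F := by
    rw [h, ← Nat.card_eq_fintype_card]
    have := qy_eq y
    rw [hy] at this
    exact this
  have hpf : Fact (p : ℕ).Prime := ⟨p.2⟩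
  let e : Res y ≃+* F := FiniteField.ringEquivOfCardEq hc
  rw [Nat.card_congr (fiberEquiv (F := F) y)]
  have e2 : (Res y →+* F) ≃ (F →+* F) :=
    { toFun := fun φ => φ.comp (e.symm : F →+* Res y)
      invFun := fun φ => φ.comp (e : Res y →+* F)
      left_inv := fun φ => RingHom.ext fun x => by
        change φ (e.symm (e x)) = φ x
        rw [e.symm_apply_apply]
      right_inv := fun φ => RingHom.ext fun x => by
        change φ (e (e.symm x)) = φ x
        rw [e.apply_symm_apply] }
  rw [Nat.card_congr e2, card_ringHom F p k h]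

/-- if `F` has `p ^ (k + 1)` elements, the closed point below `t ∈ F^σ` is of characteristic `p` -/
theorem pk_ptOf {σ : Type} [Finite σ] (F : Type) [Field F] [Fintype F] (t : σ → F)
    (p : Nat.Primes) (k : ℕ) (h : Fintype.card F = (p : ℕ) ^ (k + 1)) :
    (pk (ptOf t)).1 = p ∧ ((pk (ptOf t)).2 + 1) ∣ (k + 1) := by
  have hpf : Fact (p : ℕ).Prime := ⟨p.2⟩
  have hc : CharP F p := charP_of_card_eq_prime_pow h
  let φ : Res (ptOf t) →+* F := fiberEquiv (F := F) (ptOf t) ⟨t, rfl⟩
  have h1 : (pk (ptOf t)).1 = p := by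
    apply Subtype.ext
    rw [← ringChar_eq]
    have hcr : CharP (Res (ptOf t)) (ringChar (Res (ptOf t))) := ringChar.charP _
    have := charP_of_injective_ringHom φ.injective (ringChar (Res (ptOf t)))
    exact CharP.eq F this hc
  refine ⟨h1, ?_⟩
  let _ : Algebra (Res (ptOf t)) F := φ.toAlgebra
  have := Fintype.ofFinite (Res (ptOf t))
  have h2 := Module.card_eq_pow_finrank (K := Res (ptOf t)) (V := F)
  have h3 := qy_eq (ptOf t)
  rw [qy, Nat.card_eq_fintype_card, h1] at h3
  rw [h, h3, ← pow_mul] at h2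
  exact ⟨_, Nat.pow_right_injective p.2.two_le h2⟩

end Pool.Agent.H126R3
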