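import Pool.Agent.H126R3.Step

set_option autoImplicit false

namespace Pool.Agent.H126R3

open Polynomial

variable {L : Type*} [Field L] [IsAlgClosed L] (O : ValuationSubring L)

/-- infinite descent -/
theorem no_descent [DecidableEq L] (h2 : IsUnit (2 : O))
    (e₁ e₂ e₃ : O) (h12 : IsUnit (e₁ - e₂)) (h13 : IsUnit (e₁ - e₃)) (h23 : IsUnit (e₂ - e₃))
    (Z : Finset O) (hZne : Z.Nonempty)
    (hZinj : ∀ z ∈ Z, ∀ w ∈ Z, IsLocalRing.residue O z = IsLocalRing.residue O w → z = w)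
    (N : ℕ) : ∀ (A B : O[X]), A.natDegree ≤ N → B.natDegree ≤ N →
    A.map (IsLocalRing.residue O) ≠ 0 → B.map (IsLocalRing.residue O) = 0 → B ≠ 0 →
    (∀ a : L, Odd (((Quart e₁ e₂ e₃ A B).map (algebraMap O L)).rootMultiplicity a) ↔
      ∃ z ∈ Z, (z : L) = a) → False := by
  induction N using Nat.strong_induction_on with
  | _ N ih =>
  intro A₀ B₀ hA₀N hB₀N hA₀ hB₀ hB₀0 hpar₀
  obtain ⟨g, A, B, hAg, hBg, hg, hA, hB, hcop⟩ := strip_gcd O A₀ B₀ hA₀ hB₀
  have hg0 : g ≠ 0 := by rintro rfl; simp at hg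
  have hA0 : A ≠ 0 := by rintro rfl; simp at hA
  have hB0 : B ≠ 0 := by rintro rfl; exact hB₀0 (by rw [hBg, mul_zero])
  have hAN : A.natDegree ≤ N := by
    have := natDegree_mul hg0 hA0
    rw [← hAg] at this
    omega
  have hBN : B.natDegree ≤ N := by
    have := natDegree_mul hg0 hB0
    rw [← hBg] at this
    omega
  have hGred : ∀ e : O, (A - C e * B).map (IsLocalRing.residue O) = A.map (IsLocalRing.residue O) := by
    intro e
    rw [Polynomial.map_sub, Polynomial.map_mul, hB, mul_zero, sub_zero]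
  have hG0 : ∀ e : O, A - C e * B ≠ 0 := by
    intro e h
    apply hA
    rw [← hGred e, h, Polynomial.map_zero]
  have hQ0 : Quart e₁ e₂ e₃ A B ≠ 0 :=
    mul_ne_zero (mul_ne_zero (mul_ne_zero (hG0 _) (hG0 _)) (hG0 _)) hB0
  have hQg : Quart e₁ e₂ e₃ A₀ B₀ = g ^ 2 * g ^ 2 * Quart e₁ e₂ e₃ A B := by
    rw [Quart, Quart, hAg, hBg]; ring
  have hgm := map_ne_zero_of_ne O hg0
  have hQm := map_ne_zero_of_ne O hQ0
  have hpar : ∀ a : L, Odd (((Quart e₁ e₂ e₃ A B).map (algebraMap O L)).rootMultiplicity a) ↔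
      ∃ z ∈ Z, (z : L) = a := by
    intro a
    rw [← hpar₀ a, hQg, Polynomial.map_mul, Polynomial.map_mul, Polynomial.map_pow,
      rootMultiplicity_mul (mul_ne_zero (mul_ne_zero (pow_ne_zero _ hgm) (pow_ne_zero _ hgm)) hQm),
      rootMultiplicity_mul (mul_ne_zero (pow_ne_zero _ hgm) (pow_ne_zero _ hgm))]
    constructor
    · intro h; exact Even.add_odd ⟨_, rfl⟩ h
    · intro h
      rw [Nat.odd_add] at h
      by_contra h'
      rw [Nat.not_odd_iff_even] at h'
      have := h.2 h'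
      exact absurd this (Nat.not_odd_iff_even.2 ⟨_, rfl⟩)
  rcases Nat.eq_zero_or_pos N with hN | hN
  · subst hN
    obtain ⟨z, hz⟩ := hZne
    have h3 := (hpar z).2 ⟨z, hz, rfl⟩
    have h4 : ((Quart e₁ e₂ e₃ A B).map (algebraMap O L)).natDegree = 0 := by
      rw [natDegree_map_O, Quart]
      have hAc : A.natDegree = 0 := by omega
      have hBc : B.natDegree = 0 := by omega
      obtain ⟨α, rfl⟩ := natDegree_eq_zero.1 hAc
      obtain ⟨β, rfl⟩ := natDegree_eq_zero.1 hBc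
      rw [← C_mul, ← C_mul, ← C_mul, ← C_sub, ← C_sub, ← C_sub, ← C_mul, ← C_mul, ← C_mul]
      exact natDegree_C _
    obtain ⟨q, hq⟩ := natDegree_eq_zero.1 h4
    rw [← hq, rootMultiplicity_C] at h3
    exact absurd h3 (by decide)
  obtain ⟨T₁, T₂, T₃, hT₁, hT₂, hT₃, hr2, hr3⟩ := factors_square O e₁ e₂ e₃ h12 h13 h23 Z hZinj A B
    hA hB hB0 hcop hpar
  set τ := T₁.map (IsLocalRing.residue O) with hτ
  have hτ0 : τ ≠ 0 := by
    intro h
    apply hA
    rw [← hGred e₁, hT₁, Polynomial.map_pow, ← hτ, h]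
    simp
  have h2' : IsLocalRing.residue O 2 ≠ 0 := (IsLocalRing.residue_ne_zero_iff_isUnit _).2 h2
  have h2'' : (2 : (IsLocalRing.ResidueField O)[X]) * τ ≠ 0 := by
    refine mul_ne_zero ?_ hτ0
    have : (2 : (IsLocalRing.ResidueField O)[X]) = C (IsLocalRing.residue O 2) := by
      rw [map_ofNat]; rfl
    rw [this]
    simpa using h2'
  have hdeg : ∀ (e : O) (T : O[X]), A - C e * B = T ^ 2 → T.natDegree ≤ N / 2 := by
    intro e T hT
    have h5 : (A - C e * B).natDegree ≤ N := by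
      refine (natDegree_sub_le _ _).trans (max_le hAN ?_)
      exact (natDegree_C_mul_le _ _).trans hBN
    rw [hT, natDegree_pow] at h5
    omega
  have hd1 := hdeg _ _ hT₁
  have hd2 := hdeg _ _ hT₂
  have hd3 := hdeg _ _ hT₃
  set U := T₁ + T₃ with hU
  set V := T₁ - T₂ with hV
  have hUd : U.natDegree ≤ N / 2 := (natDegree_add_le _ _).trans (max_le hd1 hd3)
  have hVd : V.natDegree ≤ N / 2 := (natDegree_sub_le _ _).trans (max_le hd1 hd2)
  have hBsq : V * (T₁ + T₂) = C (e₂ - e₁) * B := by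
    rw [hV, C_sub]
    linear_combination hT₂ - hT₁
  have h21 : IsUnit (e₂ - e₁) := by rw [← neg_sub]; exact h12.neg
  have hce : (C (e₂ - e₁) : O[X]) ≠ 0 := by
    rw [Ne, C_eq_zero]
    intro h
    rw [h] at h21
    exact not_isUnit_zero h21
  have hV0 : V ≠ 0 := by
    intro h
    rw [h, zero_mul] at hBsq
    exact (mul_ne_zero hce hB0) hBsq.symm
  have hVr : V.map (IsLocalRing.residue O) = 0 := by
    rw [hV, Polynomial.map_sub, hr2, sub_self]
  have hsum : ∀ T T' : O[X], T.map (IsLocalRing.residue O) = τ → T'.map (IsLocalRing.residue O) = τ →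
      T + T' ≠ 0 := by
    intro T T' h h' h0
    have h6 := congrArg (Polynomial.map (IsLocalRing.residue O)) h0
    rw [Polynomial.map_add, h, h', Polynomial.map_zero] at h6
    exact h2'' (by rw [two_mul]; exact h6)
  have hUr : U.map (IsLocalRing.residue O) = 2 * τ := by
    rw [hU, Polynomial.map_add, hr3, ← hτ, two_mul]
  refine ih (N / 2) (by omega) (C e₁ * V + C (e₂ - e₁) * U) V ?_ hVd ?_ hVr hV0 ?_
  · refine (natDegree_add_le _ _).trans (max_le ?_ ?_)
    · exact (natDegree_C_mul_le _ _).trans hVd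
    · exact (natDegree_C_mul_le _ _).trans hUd
  · rw [Polynomial.map_add, Polynomial.map_mul, hVr, mul_zero, zero_add, Polynomial.map_mul, hUr,
      map_C]
    refine mul_ne_zero ?_ h2''
    rw [Ne, C_eq_zero]
    exact (IsLocalRing.residue_ne_zero_iff_isUnit _).2 h21
  · have hid : Quart e₁ e₂ e₃ (C e₁ * V + C (e₂ - e₁) * U) V * (T₁ + T₂) ^ 2 =
        C ((e₂ - e₁) ^ 4) * ((T₁ + T₃) * (T₂ + T₃)) ^ 2 * B := by
      have i1 : C e₁ * V + C (e₂ - e₁) * U - C e₁ * V = C (e₂ - e₁) * (T₁ + T₃) := by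
        rw [hU]; ring
      have i2 : C e₁ * V + C (e₂ - e₁) * U - C e₂ * V = C (e₂ - e₁) * (T₂ + T₃) := by
        rw [hU, hV, C_sub]; ring
      have i3 : (C e₁ * V + C (e₂ - e₁) * U - C e₃ * V) * (T₁ + T₂) =
          C (e₂ - e₁) * ((T₁ + T₃) * (T₂ + T₃)) := by
        have h7 : C (e₁ - e₃) * B = (T₃ - T₁) * (T₃ + T₁) := by
          rw [C_sub]; linear_combination hT₃ - hT₁
        have h8 : (C e₁ * V + C (e₂ - e₁) * U - C e₃ * V) * (T₁ + T₂) =
            C (e₁ - e₃) * (V * (T₁ + T₂)) + C (e₂ - e₁) * U * (T₁ + T₂) := by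
          rw [C_sub (a := e₁) (b := e₃)]; ring
        rw [h8, hBsq]
        have h9 : C (e₁ - e₃) * (C (e₂ - e₁) * B) = C (e₂ - e₁) * (C (e₁ - e₃) * B) := by ring
        rw [h9, h7, hU]
        ring
      rw [Quart, i1, i2, C_pow]
      calc C (e₂ - e₁) * (T₁ + T₃) * (C (e₂ - e₁) * (T₂ + T₃)) *
            (C e₁ * V + C (e₂ - e₁) * U - C e₃ * V) * V * (T₁ + T₂) ^ 2
          = C (e₂ - e₁) * (T₁ + T₃) * (C (e₂ - e₁) * (T₂ + T₃)) *
            ((C e₁ * V + C (e₂ - e₁) * U - C e₃ * V) * (T₁ + T₂)) * (V * (T₁ + T₂)) := by ring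
        _ = _ := by rw [i3, hBsq]; ring
    intro a
    rw [← hpar a]
    have n12 := map_ne_zero_of_ne O (hsum T₁ T₂ hτ.symm hr2)
    have n13 := map_ne_zero_of_ne O (hsum T₁ T₃ hτ.symm hr3)
    have n23 := map_ne_zero_of_ne O (hsum T₂ T₃ hr2 hr3)
    have nB := map_ne_zero_of_ne O hB0
    have hm : ((Quart e₁ e₂ e₃ (C e₁ * V + C (e₂ - e₁) * U) V * (T₁ + T₂) ^ 2).map
        (algebraMap O L)).rootMultiplicity a = ((C ((e₂ - e₁) ^ 4) *
        ((T₁ + T₃) * (T₂ + T₃)) ^ 2 * B).map (algebraMap O L)).rootMultiplicity a := by rw [hid]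
    have hrhs0 : (C ((e₂ - e₁) ^ 4) * ((T₁ + T₃) * (T₂ + T₃)) ^ 2 * B).map (algebraMap O L) ≠ 0 := by
      rw [Polynomial.map_mul, Polynomial.map_mul, Polynomial.map_pow, Polynomial.map_mul, C_pow,
        Polynomial.map_pow]
      exact mul_ne_zero (mul_ne_zero (pow_ne_zero _ (map_ne_zero_of_ne O hce))
        (pow_ne_zero _ (mul_ne_zero n13 n23))) nB
    have hlhs0 := hrhs0
    rw [← hid] at hlhs0
    have hc4 : (C ((e₂ - e₁) ^ 4) : O[X]).map (algebraMap O L) = C (algebraMap O L ((e₂ - e₁) ^ 4)) :=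
      map_C _
    have hsq : ∀ P : L[X], P ≠ 0 → (P ^ 2).rootMultiplicity a = 2 * P.rootMultiplicity a := by
      intro P hP
      rw [sq, rootMultiplicity_mul (mul_ne_zero hP hP)]
      ring
    rw [Polynomial.map_mul] at hm hlhs0
    rw [rootMultiplicity_mul hlhs0, Polynomial.map_pow (algebraMap O L) (n := 2) (p := T₁ + T₂),
      hsq _ n12] at hm
    rw [Polynomial.map_mul, Polynomial.map_mul, hc4, Polynomial.map_pow, Polynomial.map_mul] at hm hrhs0
    rw [rootMultiplicity_mul hrhs0, rootMultiplicity_mul (left_ne_zero_of_mul hrhs0),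
      rootMultiplicity_C, zero_add, hsq _ (mul_ne_zero n13 n23),
      rootMultiplicity_mul (mul_ne_zero n13 n23)] at hm
    have hQ : (Quart e₁ e₂ e₃ A B) = (T₁ * T₂ * T₃) * (T₁ * T₂ * T₃) * B := by
      rw [Quart, hT₁, hT₂, hT₃]; ring
    rw [hQ] at hQm ⊢
    rw [Polynomial.map_mul] at hQm ⊢
    rw [rootMultiplicity_mul hQm, Polynomial.map_mul (algebraMap O L) (p := T₁ * T₂ * T₃)]
    rw [Polynomial.map_mul (algebraMap O L) (p := T₁ * T₂ * T₃)] at hQm
    rw [rootMultiplicity_mul (left_ne_zero_of_mul hQm)]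
    constructor
    · intro h
      rw [Nat.odd_iff] at h ⊢
      omega
    · intro h
      rw [Nat.odd_iff] at h ⊢
      omega

end Pool.Agent.H126R3
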