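import Pool.Agent.H126R3.Dominate

set_option autoImplicit false

namespace Pool.Agent.H126R3

open Polynomial

/-- the discriminant of the monic cubic `x³ + a₂x² + a₄x + a₆` -/
def cubicDisc {R : Type*} [CommRing R] (a₂ a₄ a₆ : R) : R :=
  a₂ ^ 2 * a₄ ^ 2 - 4 * a₄ ^ 3 - 4 * a₂ ^ 3 * a₆ - 27 * a₆ ^ 2 + 18 * a₂ * a₄ * a₆

theorem residue_map_eq_zero_iff {R : Type*} [CommRing R] (q : R) {L : Type*} [Field L]
    (O : ValuationSubring L) (ψ : R →+* O) (hψ : ∀ r, IsUnit (ψ r) ↔ ¬ q ∣ r) (g : R[X]) :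
    (g.map ψ).map (IsLocalRing.residue O) = 0 ↔ C q ∣ g := by
  rw [C_dvd_iff_dvd_coeff]
  constructor
  · intro h i
    have h1 := congrArg (fun P => coeff P i) h
    simp only [coeff_map, coeff_zero] at h1
    by_contra h2
    exact (IsLocalRing.residue_ne_zero_iff_isUnit _).2 ((hψ _).2 h2) h1
  · intro h
    ext i
    rw [coeff_map, coeff_map, coeff_zero]
    by_contra h2
    exact (hψ _).1 ((IsLocalRing.residue_ne_zero_iff_isUnit _).1 h2) (h i)

theorem eval_coe_O {L : Type*} [Field L] (O : ValuationSubring L) (G : O[X]) (z : O) :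
    (G.map (algebraMap O L)).eval (z : L) = algebraMap O L (G.eval z) := by
  rw [eval_map, ← eval₂_at_apply]
  rfl

/-- the quartic form of the cubic, over the base ring -/
noncomputable def QuartR {R : Type*} [CommRing R] (a₂ a₄ a₆ : R) (a b : R[X]) : R[X] :=
  (a ^ 3 + C a₂ * a ^ 2 * b + C a₄ * a * b ^ 2 + C a₆ * b ^ 3) * b

/-- no point of the twist: polynomial version -/
theorem no_poly {R : Type*} [CommRing R] [IsDomain R] [UniqueFactorizationMonoid R]
    (q : R) (hq : Prime q) (h2 : ¬ q ∣ 2) (a₂ a₄ a₆ : R) (hdisc : ¬ q ∣ cubicDisc a₂ a₄ a₆)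
    (h : R[X]) (hdeg : 0 < h.natDegree) (hlc : ¬ q ∣ h.leadingCoeff) (r : R) (hr : ¬ q ∣ r)
    (u v : R[X]) (hbez : u * h + v * derivative h = C r)
    (δ : R) (hδ0 : δ ≠ 0) (hδ : Odd (multiplicity q δ))
    (a b m n : R[X]) (hab : IsRelPrime a b) (hb0 : b ≠ 0) (hm0 : m ≠ 0) (hn0 : n ≠ 0)
    (heq : C δ * h * m ^ 2 = n ^ 2 * QuartR a₂ a₄ a₆ a b) : False := by
  classical
  have hh0 : h ≠ 0 := by rintro rfl; simp at hdeg
  have hCδ : (C δ : R[X]) ≠ 0 := by simpa using hδ0
  have hQ0 : QuartR a₂ a₄ a₆ a b ≠ 0 := by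
    intro h0
    rw [h0, mul_zero] at heq
    exact mul_ne_zero (mul_ne_zero hCδ hh0) (pow_ne_zero 2 hm0) heq
  have hCq : Prime (C q : R[X]) := prime_C_iff.2 hq
  have hfin : ∀ g : R[X], g ≠ 0 → FiniteMultiplicity (C q) g := fun g hg =>
    FiniteMultiplicity.of_not_isUnit hCq.not_isUnit hg
  have hmulδ : multiplicity (C q : R[X]) (C δ) = multiplicity q δ := by
    apply multiplicity_eq_of_emultiplicity_eq
    apply emultiplicity_eq_emultiplicity_iff.2
    intro k
    rw [← C_pow]
    constructor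
    · intro h'
      rw [C_dvd_iff_dvd_coeff] at h'
      simpa using h' 0
    · rintro ⟨c, hc⟩
      exact ⟨C c, by rw [hc, C_mul]⟩
  have hmulh : multiplicity (C q : R[X]) h = 0 := by
    apply multiplicity_eq_zero.2
    intro h'
    rw [C_dvd_iff_dvd_coeff] at h'
    exact hlc (h' _)
  -- parity of the multiplicity
  have hQq : C q ∣ QuartR a₂ a₄ a₆ a b := by
    by_contra hnd
    have e1 : multiplicity (C q : R[X]) (C δ * h * m ^ 2) =
        multiplicity q δ + 2 * multiplicity (C q : R[X]) m := by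
      rw [multiplicity_mul hCq (hfin _ (mul_ne_zero (mul_ne_zero hCδ hh0) (pow_ne_zero 2 hm0))),
        multiplicity_mul hCq (hfin _ (mul_ne_zero hCδ hh0)), hmulδ, hmulh,
        (hfin m hm0).multiplicity_pow hCq]
      ring
    have e2 : multiplicity (C q : R[X]) (n ^ 2 * QuartR a₂ a₄ a₆ a b) =
        2 * multiplicity (C q : R[X]) n := by
      rw [multiplicity_mul hCq (hfin _ (mul_ne_zero (pow_ne_zero 2 hn0) hQ0)),
        multiplicity_eq_zero.2 hnd, (hfin n hn0).multiplicity_pow hCq]
      ring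
    rw [heq, e2] at e1
    rw [Nat.odd_iff] at hδ
    omega
  -- pass to the algebraic closure
  let F := FractionRing R
  let L := AlgebraicClosure F
  have : FaithfulSMul R L := by
    rw [faithfulSMul_iff_algebraMap_injective, IsScalarTower.algebraMap_eq R F L]
    exact (algebraMap F L).injective.comp (IsFractionRing.injective R F)
  obtain ⟨O, ψ, hψ, hψu⟩ := exists_dominating q hq (L := L)
  have hψinj : Function.Injective ψ := by
    intro x y hxy
    apply FaithfulSMul.algebraMap_injective R L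
    rw [← hψ, ← hψ, hxy]
  have hu2 : IsUnit (2 : O) := by
    have := (hψu 2).2 h2
    rwa [map_ofNat] at this
  obtain ⟨e₁, e₂, e₃, i2, i4, i6⟩ := cubic_roots O (ψ a₂) (ψ a₄) (ψ a₆)
  have hdu : IsUnit (ψ (cubicDisc a₂ a₄ a₆)) := (hψu _).2 hdisc
  have hde : ψ (cubicDisc a₂ a₄ a₆) =
      (e₁ - e₂) * ((e₁ - e₃) * ((e₂ - e₃) * ((e₁ - e₂) * (e₁ - e₃) * (e₂ - e₃)))) := by
    have : ψ (cubicDisc a₂ a₄ a₆) = cubicDisc (ψ a₂) (ψ a₄) (ψ a₆) := by
      simp only [cubicDisc, map_sub, map_add, map_mul, map_pow, map_ofNat]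
    rw [this, i2, i4, i6, cubicDisc]
    ring
  rw [hde] at hdu
  have h12 : IsUnit (e₁ - e₂) := isUnit_of_mul_isUnit_left hdu
  have h13 : IsUnit (e₁ - e₃) := isUnit_of_mul_isUnit_left (isUnit_of_mul_isUnit_right hdu)
  have h23 : IsUnit (e₂ - e₃) :=
    isUnit_of_mul_isUnit_left (isUnit_of_mul_isUnit_right (isUnit_of_mul_isUnit_right hdu))
  set hO : O[X] := h.map ψ with hhO
  have hOdeg : hO.natDegree = h.natDegree := natDegree_map_eq_of_injective hψinj h
  have hOlc : IsUnit hO.leadingCoeff := by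
    rw [hhO, leadingCoeff_map_of_injective hψinj]
    exact (hψu _).2 hlc
  have hO0 : hO ≠ 0 := by
    intro h'
    rw [h', leadingCoeff_zero] at hOlc
    exact not_isUnit_zero hOlc
  have hOL0 : hO.map (algebraMap O L) ≠ 0 := map_ne_zero_of_ne O hO0
  -- the roots
  set Z : Finset O := (hO.map (algebraMap O L)).roots.toFinset.subtype (· ∈ O) with hZ
  have hZmem : ∀ z : O, z ∈ Z ↔ (hO.map (algebraMap O L)).eval (z : L) = 0 := by
    intro z
    rw [hZ, Finset.mem_subtype, Multiset.mem_toFinset, mem_roots hOL0, IsRoot.def]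
  have hZall : ∀ a : L, (hO.map (algebraMap O L)).eval a = 0 ↔ ∃ z ∈ Z, (z : L) = a := by
    intro a
    constructor
    · intro ha
      obtain ⟨z, hz⟩ := root_integral O hO hOlc a ha
      exact ⟨z, (hZmem z).2 (by rw [hz]; exact ha), hz⟩
    · rintro ⟨z, hz, rfl⟩
      exact (hZmem z).1 hz
  have hZne : Z.Nonempty := by
    have hd' : (hO.map (algebraMap O L)).degree ≠ 0 := by
      rw [Polynomial.degree_eq_natDegree hOL0, natDegree_map_O, hOdeg]
      exact_mod_cast hdeg.ne'
    obtain ⟨a, ha⟩ := IsAlgClosed.exists_root _ hd'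
    obtain ⟨z, hz, _⟩ := (hZall a).1 ha
    exact ⟨z, hz⟩
  have hbezO : u.map ψ * hO + v.map ψ * derivative hO = C (ψ r) := by
    rw [hhO, derivative_map, ← Polynomial.map_mul, ← Polynomial.map_mul, ← Polynomial.map_add, hbez,
      map_C]
  have hZeval : ∀ z ∈ Z, hO.eval z = 0 := by
    intro z hz
    have := (hZmem z).1 hz
    apply alg_inj O
    rw [map_zero, ← this, eval_coe_O]
  have hZinj : ∀ z ∈ Z, ∀ w ∈ Z, IsLocalRing.residue O z = IsLocalRing.residue O w → z = w := by
    intro z hz w hw hzw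
    by_contra hne
    obtain ⟨h₁, hh₁⟩ := dvd_iff_isRoot.2 (hZeval z hz)
    have hw1 : h₁.eval w = 0 := by
      have := hZeval w hw
      rw [hh₁, eval_mul, eval_sub, eval_X, eval_C] at this
      exact (mul_eq_zero.1 this).resolve_left (sub_ne_zero.2 (Ne.symm hne))
    obtain ⟨h₂, hh₂⟩ := dvd_iff_isRoot.2 hw1
    have hb2 := congrArg (fun P => (P.map (IsLocalRing.residue O)).eval (IsLocalRing.residue O z)) hbezO
    simp only [hh₁, hh₂, Polynomial.map_add, Polynomial.map_mul, Polynomial.map_sub, map_X, map_C,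
      derivative_mul, derivative_X_sub_C, eval_add, eval_mul, eval_sub, eval_X, eval_C, hzw, sub_self,
      zero_mul, mul_zero, add_zero, zero_add, one_mul, mul_one] at hb2
    exact (IsLocalRing.residue_ne_zero_iff_isUnit _).2 ((hψu r).2 hr) hb2.symm
  have hroot1 : ∀ a : L, (hO.map (algebraMap O L)).eval a = 0 →
      (hO.map (algebraMap O L)).rootMultiplicity a = 1 := by
    intro a ha
    have h1 : 0 < (hO.map (algebraMap O L)).rootMultiplicity a := (rootMultiplicity_pos hOL0).2 ha
    by_contra hne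
    have h2' : 1 < (hO.map (algebraMap O L)).rootMultiplicity a := by omega
    have h3 := (one_lt_rootMultiplicity_iff_isRoot hOL0).1 h2'
    have hb2 := congrArg (fun P => (P.map (algebraMap O L)).eval a) hbezO
    simp only [Polynomial.map_add, Polynomial.map_mul, ← derivative_map, map_C, eval_add, eval_mul,
      eval_C] at hb2
    have h4 : (derivative (hO.map (algebraMap O L))).eval a = 0 := h3.2
    rw [ha, h4, mul_zero, mul_zero, add_zero] at hb2
    exact coe_unit_ne O ((hψu r).2 hr) hb2.symm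
  -- the quartic form
  set A : O[X] := a.map ψ with hA
  set B : O[X] := b.map ψ with hB
  have hQmap : (QuartR a₂ a₄ a₆ a b).map ψ = Quart e₁ e₂ e₃ A B := by
    rw [QuartR, Quart, hA, hB]
    simp only [Polynomial.map_mul, Polynomial.map_add, Polynomial.map_pow, map_C, i2, i4, i6, C_neg,
      C_add, C_mul]
    ring
  have hQne : Quart e₁ e₂ e₃ A B ≠ 0 := by
    rw [← hQmap]
    intro h'
    exact hQ0 (Polynomial.map_injective ψ hψinj (by rw [h', Polynomial.map_zero]))
  have hpar : ∀ x : L, Odd (((Quart e₁ e₂ e₃ A B).map (algebraMap O L)).rootMultiplicity x) ↔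
      ∃ z ∈ Z, (z : L) = x := by
    intro x
    have h5 := congrArg (fun P => (P.map ψ).map (algebraMap O L)) heq
    simp only [Polynomial.map_mul, Polynomial.map_pow, map_C, hQmap] at h5
    have hne : ∀ g : R[X], g ≠ 0 → (g.map ψ).map (algebraMap O L) ≠ 0 := fun g hg =>
      map_ne_zero_of_ne O (fun h' => hg (Polynomial.map_injective ψ hψinj
        (by rw [h', Polynomial.map_zero])))
    have nm := hne m hm0
    have nn := hne n hn0
    have nδ : (C (algebraMap O L (ψ δ)) : L[X]) ≠ 0 := by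
      have := hne _ hCδ
      simpa [map_C] using this
    have nQ := map_ne_zero_of_ne O hQne
    have hsq : ∀ P : L[X], P ≠ 0 → (P ^ 2).rootMultiplicity x = 2 * P.rootMultiplicity x := by
      intro P hP
      rw [sq, rootMultiplicity_mul (mul_ne_zero hP hP)]
      ring
    have h6 := congrArg (fun P => P.rootMultiplicity x) h5
    rw [rootMultiplicity_mul (mul_ne_zero (mul_ne_zero nδ hOL0) (pow_ne_zero 2 nm)),
      rootMultiplicity_mul (mul_ne_zero nδ hOL0), rootMultiplicity_C, zero_add, hsq _ nm,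
      rootMultiplicity_mul (mul_ne_zero (pow_ne_zero 2 nn) nQ), hsq _ nn] at h6
    rw [← hZall x]
    constructor
    · intro hodd
      by_contra hx
      rw [rootMultiplicity_eq_zero hx] at h6
      rw [Nat.odd_iff] at hodd
      omega
    · intro hx
      rw [hroot1 x hx] at h6
      rw [Nat.odd_iff]
      omega
  have hredA := residue_map_eq_zero_iff q O ψ hψu a
  have hredB := residue_map_eq_zero_iff q O ψ hψu b
  have hnotboth : ¬ (C q ∣ a ∧ C q ∣ b) := fun h' => hCq.not_isUnit (hab h'.1 h'.2)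
  rcases hCq.dvd_or_dvd hQq with hF | hbq
  · -- reduction to a point of order two
    have hF' := (residue_map_eq_zero_iff q O ψ hψu _).2 hF
    have hB0 : B.map (IsLocalRing.residue O) ≠ 0 := by
      intro hB0
      have hA0 : A.map (IsLocalRing.residue O) = 0 := by
        have h7 : (A.map (IsLocalRing.residue O)) ^ 3 = 0 := by
          rw [← hF']
          simp only [Polynomial.map_mul, Polynomial.map_add, Polynomial.map_pow, map_C, ← hA, ← hB, hB0]
          ring
        exact pow_eq_zero_iff (by norm_num) |>.1 h7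
      exact hnotboth ⟨hredA.1 hA0, hredB.1 hB0⟩
    have hprod : (A.map (IsLocalRing.residue O) - C (IsLocalRing.residue O e₁) * B.map (IsLocalRing.residue O)) *
        ((A.map (IsLocalRing.residue O) - C (IsLocalRing.residue O e₂) * B.map (IsLocalRing.residue O)) *
        (A.map (IsLocalRing.residue O) - C (IsLocalRing.residue O e₃) * B.map (IsLocalRing.residue O))) = 0 := by
      rw [← hF']
      simp only [Polynomial.map_mul, Polynomial.map_add, Polynomial.map_pow, Polynomial.map_neg, map_C,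
        ← hA, ← hB, i2, i4, i6, C_neg, C_add, C_mul]
      ring
    have s213 : Quart e₂ e₁ e₃ A B = Quart e₁ e₂ e₃ A B := by rw [Quart, Quart]; ring
    have s312 : Quart e₃ e₁ e₂ A B = Quart e₁ e₂ e₃ A B := by rw [Quart, Quart]; ring
    have h21 : IsUnit (e₂ - e₁) := by rw [← neg_sub]; exact h12.neg
    have h31 : IsUnit (e₃ - e₁) := by rw [← neg_sub]; exact h13.neg
    have h32 : IsUnit (e₃ - e₂) := by rw [← neg_sub]; exact h23.neg
    rcases mul_eq_zero.1 hprod with h8 | h8
    · exact two_torsion_red O hu2 e₁ e₂ e₃ h12 h13 h23 Z hZne hZinj A B hB0 (sub_eq_zero.1 h8) hQne hpar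
    rcases mul_eq_zero.1 h8 with h8 | h8
    · exact two_torsion_red O hu2 e₂ e₁ e₃ h21 h23 h13 Z hZne hZinj A B hB0 (sub_eq_zero.1 h8)
        (by rw [s213]; exact hQne) (by rw [s213]; exact hpar)
    · exact two_torsion_red O hu2 e₃ e₁ e₂ h31 h32 h12 Z hZne hZinj A B hB0 (sub_eq_zero.1 h8)
        (by rw [s312]; exact hQne) (by rw [s312]; exact hpar)
  · refine no_descent O hu2 e₁ e₂ e₃ h12 h13 h23 Z hZne hZinj (max A.natDegree B.natDegree) A B
      (le_max_left _ _) (le_max_right _ _) ?_ (hredB.2 hbq) ?_ hpar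
    · intro h'
      exact hnotboth ⟨hredA.1 h', hbq⟩
    · intro h'
      exact hb0 (Polynomial.map_injective ψ hψinj (by rw [← hB, h', Polynomial.map_zero]))

end Pool.Agent.H126R3
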