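import Pool.Agent.H126R3.Phi

set_option autoImplicit false

namespace Pool.Agent.H126R3

open MvPolynomial

section

variable {σ : Type} [Fintype σ] (a₂ a₄ a₆ N : ℤ) (D : MvPolynomial σ ℤ)

/-- the logarithm of the Euler product -/
noncomputable def lL (s : ℂ) : ℂ :=
  ∑' y : Pt σ, rho a₂ a₄ a₆ N D y s + ∑' c : Nat.Primes × ℕ, (Ac a₂ a₄ a₆ N D c : ℂ) * (Qc c : ℂ) ^ (-s)

variable (h2 : 2 ∣ N) (hn : 1 ≤ Fintype.card σ)

include h2 hn

theorem rho_summable (s : ℂ) (hs : (Fintype.card σ : ℝ) + 5 / 6 ≤ s.re) :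
    Summable (fun y => rho a₂ a₄ a₆ N D y s) := by
  have hn' : (1 : ℝ) ≤ Fintype.card σ := by exact_mod_cast hn
  refine Summable.of_norm_bounded
    ((summable_y (σ := σ) (2 * s.re - 1) (by linarith)).mul_left 19) (fun y => ?_)
  exact rho_norm a₂ a₄ a₆ N D h2 y s (by linarith)

theorem rho_tsum_diff : DifferentiableOn ℂ (fun s => ∑' y : Pt σ, rho a₂ a₄ a₆ N D y s)
    {s : ℂ | (Fintype.card σ : ℝ) + 5 / 6 < s.re} := by
  have hn' : (1 : ℝ) ≤ Fintype.card σ := by exact_mod_cast hn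
  refine Complex.differentiableOn_tsum_of_summable_norm
    (u := fun y => 19 * (qy y : ℝ) ^ (-(2 * ((Fintype.card σ : ℝ) + 5 / 6) - 1)))
    ((summable_y (σ := σ) (2 * ((Fintype.card σ : ℝ) + 5 / 6) - 1) (by linarith)).mul_left 19) ?_
    (isOpen_lt continuous_const Complex.continuous_re) ?_
  · intro y s hs
    simp only [Set.mem_ofPred_eq] at hs
    exact (rho_diff a₂ a₄ a₆ N D h2 y s (by linarith)).differentiableWithinAt
  · intro y s hs
    simp only [Set.mem_ofPred_eq] at hs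
    refine (rho_norm a₂ a₄ a₆ N D h2 y s (by linarith)).trans ?_
    apply mul_le_mul_of_nonneg_left _ (by norm_num)
    apply Real.rpow_le_rpow_of_exponent_le (by exact_mod_cast qy_pos y)
    linarith

omit h2 hn in
theorem Ac_term_norm (c : Nat.Primes × ℕ) (s : ℂ) :
    ‖(Ac a₂ a₄ a₆ N D c : ℂ) * (Qc c : ℂ) ^ (-s)‖ = |Ac a₂ a₄ a₆ N D c| * (Qc c : ℝ) ^ (-s.re) := by
  rw [norm_mul, Complex.norm_natCast_cpow_of_pos (Qc_pos c), Complex.norm_real, Real.norm_eq_abs,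
    Complex.neg_re]

omit h2 hn in
theorem Ac_tsum_diff (σ₀ : ℝ) (hsum : ∀ σ₁, σ₀ < σ₁ →
    Summable (fun c => |Ac a₂ a₄ a₆ N D c| * (Qc c : ℝ) ^ (-σ₁))) :
    DifferentiableOn ℂ (fun s => ∑' c : Nat.Primes × ℕ, (Ac a₂ a₄ a₆ N D c : ℂ) * (Qc c : ℂ) ^ (-s))
      {s : ℂ | σ₀ < s.re} := by
  intro s hs
  simp only [Set.mem_ofPred_eq] at hs
  obtain ⟨σ₁, h1, h3⟩ := exists_between hs
  have hopen : IsOpen {s : ℂ | σ₁ < s.re} := isOpen_lt continuous_const Complex.continuous_re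
  have hd : DifferentiableOn ℂ
      (fun s => ∑' c : Nat.Primes × ℕ, (Ac a₂ a₄ a₆ N D c : ℂ) * (Qc c : ℂ) ^ (-s))
      {s : ℂ | σ₁ < s.re} := by
    refine Complex.differentiableOn_tsum_of_summable_norm (hsum σ₁ h1) ?_ hopen ?_
    · intro c s _
      have hq : (Qc c : ℂ) ≠ 0 := by exact_mod_cast (Qc_pos c).ne'
      exact (((differentiableAt_id.neg).const_cpow (Or.inl hq)).const_mul _).differentiableWithinAt
    · intro c s hs
      simp only [Set.mem_ofPred_eq] at hs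
      rw [Ac_term_norm]
      apply mul_le_mul_of_nonneg_left _ (abs_nonneg _)
      apply Real.rpow_le_rpow_of_exponent_le (by exact_mod_cast Qc_pos c)
      linarith
  exact (hd.differentiableAt (hopen.mem_nhds h3)).differentiableWithinAt

theorem lL_diff (σ₀ : ℝ) (hσ : (Fintype.card σ : ℝ) + 5 / 6 ≤ σ₀) (hsum : ∀ σ₁, σ₀ < σ₁ →
    Summable (fun c => |Ac a₂ a₄ a₆ N D c| * (Qc c : ℝ) ^ (-σ₁))) :
    DifferentiableOn ℂ (lL a₂ a₄ a₆ N D) {s : ℂ | σ₀ < s.re} := by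
  refine DifferentiableOn.add ?_ (Ac_tsum_diff a₂ a₄ a₆ N D σ₀ hsum)
  refine (rho_tsum_diff a₂ a₄ a₆ N D h2 hn).mono ?_
  intro s hs
  simp only [Set.mem_ofPred_eq] at hs ⊢
  linarith

theorem hasSum_ay (s : ℂ) (hs : (Fintype.card σ : ℝ) + 3 / 2 < s.re) :
    HasSum (fun y : Pt σ => (ag a₂ a₄ a₆ N D y : ℂ) * (qy y : ℂ) ^ (-s))
      (∑' c : Nat.Primes × ℕ, (Ac a₂ a₄ a₆ N D c : ℂ) * (Qc c : ℂ) ^ (-s)) := by
  classical
  have hsm : Summable (fun y : Pt σ => (ag a₂ a₄ a₆ N D y : ℂ) * (qy y : ℂ) ^ (-s)) := by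
    refine Summable.of_norm_bounded
      ((summable_y (σ := σ) (s.re - 1 / 2) (by linarith)).mul_left 2) (fun y => ?_)
    exact term_norm a₂ a₄ a₆ N D h2 y s
  have h3 : ∑' y : Pt σ, (ag a₂ a₄ a₆ N D y : ℂ) * (qy y : ℂ) ^ (-s) =
      ∑' c : Nat.Primes × ℕ, (Ac a₂ a₄ a₆ N D c : ℂ) * (Qc c : ℂ) ^ (-s) := by
    rw [← (Equiv.sigmaFiberEquiv (pk (σ := σ))).tsum_eq, Summable.tsum_sigma]
    · apply tsum_congr
      intro c
      have h4 : ∀ y : Yc (σ := σ) c, ((ag a₂ a₄ a₆ N D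
          ((Equiv.sigmaFiberEquiv (pk (σ := σ))) ⟨c, y⟩) : ℝ) : ℂ) *
          (qy ((Equiv.sigmaFiberEquiv (pk (σ := σ))) ⟨c, y⟩) : ℂ) ^ (-s) =
          ((ag a₂ a₄ a₆ N D y.1 : ℝ) : ℂ) * (Qc c : ℂ) ^ (-s) := by
        intro y
        change ((ag a₂ a₄ a₆ N D y.1 : ℝ) : ℂ) * (qy y.1 : ℂ) ^ (-s) = _
        rw [qy_Qc c y]
      rw [tsum_congr h4, tsum_fintype, ← Finset.sum_mul]
      congr 1
      rw [Ac]
      push_cast
      apply Finset.sum_congr rfl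
      intro y _
      rw [ag]
    · exact (Equiv.sigmaFiberEquiv (pk (σ := σ))).summable_iff.2 hsm
  rw [← h3]
  exact hsm.hasSum

open Classical in
/-- the Euler product -/
theorem hasProd_all (s : ℂ) (hs : (Fintype.card σ : ℝ) + 3 / 2 < s.re) :
    HasProd (fun y : Pt σ => if Good N D y then
      (1 - (ay a₂ a₄ a₆ D y : ℂ) * (qy y : ℂ) ^ (-s) + (qy y : ℂ) ^ (1 - 2 * s))⁻¹ else 1)
      (Complex.exp (lL a₂ a₄ a₆ N D s)) := by
  have hn' : (1 : ℝ) ≤ Fintype.card σ := by exact_mod_cast hn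
  have h3 := ((rho_summable a₂ a₄ a₆ N D h2 hn s (by linarith)).hasSum.add
    (hasSum_ay a₂ a₄ a₆ N D h2 hn s hs)).cexp
  have h4 : (Complex.exp ∘ fun y : Pt σ => rho a₂ a₄ a₆ N D y s +
      (ag a₂ a₄ a₆ N D y : ℂ) * (qy y : ℂ) ^ (-s)) =
      fun y : Pt σ => if Good N D y then
      (1 - (ay a₂ a₄ a₆ D y : ℂ) * (qy y : ℂ) ^ (-s) + (qy y : ℂ) ^ (1 - 2 * s))⁻¹ else 1 := by
    funext y
    simp only [Function.comp]
    by_cases h : Good N D y
    · rw [if_pos h, rho, if_pos h, sub_add_cancel, Complex.exp_neg, Complex.exp_log]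
      · rw [zz, ag, if_pos h]
        push_cast
        congr 1
        ring
      · intro h0
        have hz := zz_small a₂ a₄ a₆ N D h2 y h s (by linarith)
        have : zz a₂ a₄ a₆ N D y s = 1 := by
          rw [sub_eq_zero] at h0
          exact h0.symm
        rw [this, norm_one] at hz
        norm_num at hz
    · rw [if_neg h, rho, if_neg h, ag, if_neg h]
      simp
  rw [h4] at h3
  exact h3

/-- the Euler product over the closed points of the model -/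
theorem hasProd_good (s : ℂ) (hs : (Fintype.card σ : ℝ) + 3 / 2 < s.re) :
    HasProd (fun y : {y : Pt σ // Good N D y} =>
      (1 - (ay a₂ a₄ a₆ D y.1 : ℂ) * (qy y.1 : ℂ) ^ (-s) + (qy y.1 : ℂ) ^ (1 - 2 * s))⁻¹)
      (Complex.exp (lL a₂ a₄ a₆ N D s)) := by
  classical
  have h3 := hasProd_all a₂ a₄ a₆ N D h2 hn s hs
  have h5 : (Set.mulIndicator {y : Pt σ | Good N D y} fun y : Pt σ =>
      (1 - (ay a₂ a₄ a₆ D y : ℂ) * (qy y : ℂ) ^ (-s) + (qy y : ℂ) ^ (1 - 2 * s))⁻¹) =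
      fun y : Pt σ => if Good N D y then
      (1 - (ay a₂ a₄ a₆ D y : ℂ) * (qy y : ℂ) ^ (-s) + (qy y : ℂ) ^ (1 - 2 * s))⁻¹ else 1 := by
    funext y
    by_cases h : Good N D y
    · rw [Set.mulIndicator_of_mem (show y ∈ {y : Pt σ | Good N D y} from h), if_pos h]
    · rw [Set.mulIndicator_of_notMem (show y ∉ {y : Pt σ | Good N D y} from h), if_neg h]
  rw [← h5] at h3
  exact hasProd_subtype_iff_mulIndicator.2 h3

end

end Pool.Agent.H126R3
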