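import Mathlib

set_option autoImplicit false

namespace Pool.Agent.H126R3

open MvPolynomial

/-- polynomials in the variables `σ` as polynomials in one variable `i` over the others -/
noncomputable def slice {σ : Type} [DecidableEq σ] (i : σ) :
    MvPolynomial σ ℤ ≃ₐ[ℤ] Polynomial (MvPolynomial {j : σ // j ≠ i} ℤ) :=
  (renameEquiv ℤ (Equiv.optionSubtypeNe i).symm).trans (optionEquivLeft ℤ {j : σ // j ≠ i})

variable {σ : Type} [DecidableEq σ] (i : σ)

theorem slice_X_self : slice i (X i) = Polynomial.X := by
  rw [slice, AlgEquiv.trans_apply, renameEquiv_apply, rename_X, Equiv.optionSubtypeNe_symm_self,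
    optionEquivLeft_X_none]

theorem slice_X_ne (j : σ) (h : j ≠ i) : slice i (X j) = Polynomial.C (X ⟨j, h⟩) := by
  rw [slice, AlgEquiv.trans_apply, renameEquiv_apply, rename_X,
    Equiv.optionSubtypeNe_symm_of_ne h, optionEquivLeft_X_some]

theorem slice_C (c : ℤ) : slice i (C c) = Polynomial.C (C c) := by
  rw [slice, AlgEquiv.trans_apply, renameEquiv_apply, rename_C, optionEquivLeft_C]

theorem slice_eval {F : Type} [CommRing F] (t : σ → F) (P : MvPolynomial σ ℤ) :
    aeval (R := ℤ) t P = ((slice i P).map
      ((aeval (R := ℤ) (fun j : {j : σ // j ≠ i} => t j) :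
        MvPolynomial {j : σ // j ≠ i} ℤ →ₐ[ℤ] F) : MvPolynomial {j : σ // j ≠ i} ℤ →+* F)).eval (t i) := by
  have h : ((aeval (R := ℤ) t : MvPolynomial σ ℤ →ₐ[ℤ] F) : MvPolynomial σ ℤ →+* F) =
      ((Polynomial.evalRingHom (t i)).comp (Polynomial.mapRingHom
      ((aeval (R := ℤ) (fun j : {j : σ // j ≠ i} => t j) :
        MvPolynomial {j : σ // j ≠ i} ℤ →ₐ[ℤ] F) : MvPolynomial {j : σ // j ≠ i} ℤ →+* F))).comp
        ((slice i : MvPolynomial σ ℤ ≃ₐ[ℤ] _) : MvPolynomial σ ℤ →+* _) := by
    apply MvPolynomial.ringHom_ext
    · intro r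
      simp [slice_C]
    · intro j
      by_cases hj : j = i
      · subst hj
        simp [slice_X_self]
      · simp [slice_X_ne i j hj]
  exact congrArg (fun g => g P) h

theorem natDegree_slice (P : MvPolynomial σ ℤ) : (slice i P).natDegree = P.degreeOf i := by
  rw [slice, AlgEquiv.trans_apply, natDegree_optionEquivLeft, renameEquiv_apply,
    ← Equiv.optionSubtypeNe_symm_self i]
  exact degreeOf_rename_of_injective (Equiv.injective _) i

theorem exists_var (P : MvPolynomial σ ℤ) (h : 0 < P.totalDegree) : ∃ i : σ, 0 < P.degreeOf i := by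
  by_contra hcon
  push Not at hcon
  have h1 : P.totalDegree = 0 := by
    rw [MvPolynomial.totalDegree_eq_zero_iff]
    intro m hm x
    exact Nat.le_zero.1 ((monomial_le_degreeOf x hm).trans (hcon x))
  omega

theorem bezout_fraction {R : Type*} [CommRing R] [IsDomain R] [UniqueFactorizationMonoid R] [CharZero R]
    (h : Polynomial R) (h0 : h ≠ 0) (hsq : ∀ g : Polynomial R, g * g ∣ h → g.natDegree = 0) :
    ∃ (u v : Polynomial R) (r : R), r ≠ 0 ∧ u * h + v * Polynomial.derivative h = Polynomial.C r := by
  classical
  let K := FractionRing R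
  have hinj : Function.Injective (algebraMap R K) := IsFractionRing.injective R K
  have : CharZero K := charZero_of_injective_algebraMap hinj
  have _ : Nonempty (NormalizedGCDMonoid R) := inferInstance
  let _ : NormalizedGCDMonoid R := Classical.choice inferInstance
  have hsqf : Squarefree (h.map (algebraMap R K)) := by
    intro x hx
    have hx0 : x ≠ 0 := by
      rintro rfl
      rw [zero_mul, zero_dvd_iff, Polynomial.map_eq_zero_iff hinj] at hx
      exact h0 hx
    obtain ⟨b, hb, hbx⟩ := IsLocalization.integerNormalization_spec (nonZeroDivisors R) x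
    set x₁ := IsLocalization.integerNormalization (nonZeroDivisors R) x with hx₁
    have hb0 : b ≠ 0 := nonZeroDivisors.ne_zero hb
    have hbK : algebraMap R K b ≠ 0 := by rwa [Ne, map_eq_zero_iff _ hinj]
    have hx10 : x₁ ≠ 0 := by
      intro h'
      rw [h', Polynomial.map_zero] at hbx
      have := hbx.symm
      rw [Algebra.smul_def] at this
      rcases mul_eq_zero.1 this with h'' | h''
      · rw [Polynomial.algebraMap_apply] at h''
        exact hbK (Polynomial.C_eq_zero.1 h'')
      · exact hx0 h''
    have hprim := Polynomial.isPrimitive_primPart x₁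
    have hx1 := Polynomial.eq_C_content_mul_primPart x₁
    have hcont : x₁.content ≠ 0 := by rwa [Ne, Polynomial.content_eq_zero_iff]
    have hcK : algebraMap R K x₁.content ≠ 0 := by rwa [Ne, map_eq_zero_iff _ hinj]
    have key : Polynomial.C (algebraMap R K b) * x =
        Polynomial.C (algebraMap R K x₁.content) * x₁.primPart.map (algebraMap R K) := by
      have h5 : x₁.map (algebraMap R K) = Polynomial.C (algebraMap R K x₁.content) *
          x₁.primPart.map (algebraMap R K) := by
        conv_lhs => rw [hx1]
        rw [Polynomial.map_mul, Polynomial.map_C]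
      rw [← h5, hbx, Algebra.smul_def, Polynomial.algebraMap_apply]
    have hdvd : x₁.primPart.map (algebraMap R K) ∣ x := by
      have h6 : x₁.primPart.map (algebraMap R K) ∣ Polynomial.C (algebraMap R K b) * x := by
        rw [key]; exact Dvd.intro_left _ rfl
      exact ((Polynomial.isUnit_C.2 hbK.isUnit).dvd_mul_left).1 h6
    have h7 : (x₁.primPart * x₁.primPart).map (algebraMap R K) ∣ h.map (algebraMap R K) := by
      rw [Polynomial.map_mul]
      exact (mul_dvd_mul hdvd hdvd).trans hx
    have h8 := (hprim.mul hprim).dvd_of_fraction_map_dvd_fraction_map h7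
    have h9 := hsq _ h8
    have h10 : x.natDegree = 0 := by
      have := congrArg Polynomial.natDegree key
      rw [Polynomial.natDegree_C_mul hbK, Polynomial.natDegree_C_mul hcK,
        Polynomial.natDegree_map_eq_of_injective hinj, h9] at this
      exact this
    rw [Polynomial.eq_C_of_natDegree_eq_zero h10]
    rw [Polynomial.isUnit_C, isUnit_iff_ne_zero]
    intro h11
    rw [Polynomial.eq_C_of_natDegree_eq_zero h10, h11, Polynomial.C_0] at hx0
    exact hx0 rfl
  have hsep := PerfectField.separable_iff_squarefree.2 hsqf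
  obtain ⟨a, b, hab⟩ := hsep
  obtain ⟨c, hc, hca⟩ := IsLocalization.integerNormalization_spec (nonZeroDivisors R) a
  obtain ⟨d, hd, hdb⟩ := IsLocalization.integerNormalization_spec (nonZeroDivisors R) b
  refine ⟨Polynomial.C d * IsLocalization.integerNormalization (nonZeroDivisors R) a,
    Polynomial.C c * IsLocalization.integerNormalization (nonZeroDivisors R) b, c * d,
    mul_ne_zero (nonZeroDivisors.ne_zero hc) (nonZeroDivisors.ne_zero hd), ?_⟩
  apply Polynomial.map_injective _ hinj
  rw [Polynomial.map_add, Polynomial.map_mul, Polynomial.map_mul, Polynomial.map_mul,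
    Polynomial.map_mul, Polynomial.map_C, Polynomial.map_C, Polynomial.map_C, hca, hdb,
    ← Polynomial.derivative_map, Algebra.smul_def, Algebra.smul_def, Polynomial.algebraMap_apply,
    Polynomial.algebraMap_apply, map_mul, Polynomial.C_mul]
  have : algebraMap R (FractionRing R) = algebraMap R K := rfl
  linear_combination (Polynomial.C (algebraMap R K c) * Polynomial.C (algebraMap R K d)) * hab

end Pool.Agent.H126R3
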