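import Pool.Agent.H126R3.NoPoint
import Pool.Agent.H126R3.Slice

set_option autoImplicit false

namespace Pool.Agent.H126R3

theorem cubicDisc_cast {R : Type*} [CommRing R] (a₂ a₄ a₆ : ℤ) :
    cubicDisc (a₂ : R) (a₄ : R) (a₆ : R) = ((cubicDisc a₂ a₄ a₆ : ℤ) : R) := by
  simp only [cubicDisc]
  push_cast
  ring

/-- no affine point with `y ≠ 0` on the twist: version over the field of fractions -/
theorem no_field {σ : Type} [DecidableEq σ] (i : σ) (a₂ a₄ a₆ : ℤ) (D : MvPolynomial σ ℤ)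
    (q δ r : MvPolynomial {j : σ // j ≠ i} ℤ)
    (h u v : Polynomial (MvPolynomial {j : σ // j ≠ i} ℤ))
    (hD : slice i D = Polynomial.C δ * h) (hq : Prime q)
    (h2 : ¬ q ∣ 2) (hdisc : ¬ q ∣ ((cubicDisc a₂ a₄ a₆ : ℤ) : MvPolynomial {j : σ // j ≠ i} ℤ))
    (hdeg : 0 < h.natDegree) (hlc : ¬ q ∣ h.leadingCoeff) (hr : ¬ q ∣ r)
    (hbez : u * h + v * Polynomial.derivative h = Polynomial.C r)
    (hδ0 : δ ≠ 0) (hδ : Odd (multiplicity q δ))
    (K : Type*) [Field K] [Algebra (MvPolynomial σ ℤ) K] [IsFractionRing (MvPolynomial σ ℤ) K]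
    (x y : K) (hy : y ≠ 0)
    (heq : algebraMap (MvPolynomial σ ℤ) K D * y ^ 2 =
      x ^ 3 + (a₂ : K) * x ^ 2 + (a₄ : K) * x + (a₆ : K)) : False := by
  have hinj : Function.Injective (algebraMap (MvPolynomial σ ℤ) K) := IsFractionRing.injective (MvPolynomial σ ℤ) K
  obtain ⟨a, b, hab, hx⟩ := IsFractionRing.exists_reduced_fraction (MvPolynomial σ ℤ) x
  obtain ⟨n, m, hy'⟩ := IsLocalization.exists_mk'_eq (nonZeroDivisors (MvPolynomial σ ℤ)) y
  have hb0 : (b : (MvPolynomial σ ℤ)) ≠ 0 := nonZeroDivisors.ne_zero b.2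
  have hm0 : (m : (MvPolynomial σ ℤ)) ≠ 0 := nonZeroDivisors.ne_zero m.2
  have hbK : algebraMap (MvPolynomial σ ℤ) K b ≠ 0 := by rwa [Ne, map_eq_zero_iff _ hinj]
  have hmK : algebraMap (MvPolynomial σ ℤ) K m ≠ 0 := by rwa [Ne, map_eq_zero_iff _ hinj]
  have hn0 : n ≠ 0 := by
    rintro rfl
    apply hy
    rw [← hy', IsLocalization.mk'_zero]
  rw [← hx, ← hy', IsFractionRing.mk'_eq_div, IsFractionRing.mk'_eq_div] at heq
  have hK : algebraMap (MvPolynomial σ ℤ) K (D * n ^ 2 * b ^ 4) =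
      algebraMap (MvPolynomial σ ℤ) K (m ^ 2 * ((a ^ 3 + (a₂ : (MvPolynomial σ ℤ)) * a ^ 2 * b + (a₄ : (MvPolynomial σ ℤ)) * a * b ^ 2 + (a₆ : (MvPolynomial σ ℤ)) * b ^ 3) * b)) := by
    field_simp at heq
    simp only [map_mul, map_pow, map_add, map_intCast]
    linear_combination (algebraMap (MvPolynomial σ ℤ) K b) * heq
  have hS := hinj hK
  have hS' := congrArg (slice i) hS
  simp only [map_mul, map_pow, map_add, map_intCast, hD] at hS'
  refine no_poly q hq h2 (a₂ : MvPolynomial {j : σ // j ≠ i} ℤ) a₄ a₆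
    (by rw [cubicDisc_cast]; exact hdisc) h hdeg hlc r hr u v hbez δ hδ0 hδ (slice i a) (slice i b)
    (slice i n * slice i b ^ 2) (slice i m) ?_ ?_ ?_ ?_ ?_
  · intro d h1 h2
    have h3 : (slice i).symm d ∣ a := by
      have := map_dvd (slice i).symm h1
      rwa [AlgEquiv.symm_apply_apply] at this
    have h4 : (slice i).symm d ∣ b := by
      have := map_dvd (slice i).symm h2
      rwa [AlgEquiv.symm_apply_apply] at this
    have h5 := (hab h3 h4).map (slice i)
    rwa [AlgEquiv.apply_symm_apply] at h5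
  · exact (map_ne_zero_iff _ (slice i).injective).2 hb0
  · exact mul_ne_zero ((map_ne_zero_iff _ (slice i).injective).2 hn0)
      (pow_ne_zero 2 ((map_ne_zero_iff _ (slice i).injective).2 hb0))
  · exact (map_ne_zero_iff _ (slice i).injective).2 hm0
  · rw [QuartR]
    have e : ∀ c : ℤ, (Polynomial.C (c : MvPolynomial {j : σ // j ≠ i} ℤ)) =
        ((c : ℤ) : Polynomial (MvPolynomial {j : σ // j ≠ i} ℤ)) := fun c => by simp
    rw [e, e, e]
    linear_combination hS'

/-- the quadratic twist by `D` of the curve `y² = x³ + a₂x² + a₄x + a₆` in Weierstrass form: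
`y² = x³ + a₂Dx² + a₄D²x + a₆D³` -/
def twist {K : Type*} [CommRing K] (a₂ a₄ a₆ : ℤ) (D : K) : WeierstrassCurve K where
  a₁ := 0
  a₂ := a₂ * D
  a₃ := 0
  a₄ := a₄ * D ^ 2
  a₆ := a₆ * D ^ 3

open WeierstrassCurve in
theorem twist_point {K : Type*} [Field K] (a₂ a₄ a₆ : ℤ) (D : K) (hD : D ≠ 0)
    (H : ∀ x y : K, y ≠ 0 → D * y ^ 2 = x ^ 3 + (a₂ : K) * x ^ 2 + (a₄ : K) * x + (a₆ : K) → False)
    (x y : K) (h : (twist a₂ a₄ a₆ D).toAffine.Nonsingular x y) : y = 0 := by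
  by_contra hy
  have h1 := h.1
  rw [Affine.equation_iff] at h1
  simp only [twist] at h1
  refine H (x / D) (y / D ^ 2) (div_ne_zero hy (pow_ne_zero 2 hD)) ?_
  field_simp
  linear_combination h1

open WeierstrassCurve Classical in
theorem twist_two_torsion {K : Type*} [Field K] (a₂ a₄ a₆ : ℤ) (D : K) (hD : D ≠ 0)
    (H : ∀ x y : K, y ≠ 0 → D * y ^ 2 = x ^ 3 + (a₂ : K) * x ^ 2 + (a₄ : K) * x + (a₆ : K) → False)
    (P : (twist a₂ a₄ a₆ D).toAffine.Point) : P + P = 0 := by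
  rcases P with _ | ⟨x, y, h⟩
  · exact add_zero _
  · have hy := twist_point a₂ a₄ a₆ D hD H x y h
    apply Affine.Point.add_self_of_Y_eq
    simp [Affine.negY, twist, hy]

open WeierstrassCurve Classical in
theorem twist_finite {K : Type*} [Field K] (a₂ a₄ a₆ : ℤ) (D : K) (hD : D ≠ 0)
    (H : ∀ x y : K, y ≠ 0 → D * y ^ 2 = x ^ 3 + (a₂ : K) * x ^ 2 + (a₄ : K) * x + (a₆ : K) → False) :
    Finite (twist a₂ a₄ a₆ D).toAffine.Point := by
  set g : Polynomial K := Polynomial.X ^ 3 + Polynomial.C (a₂ * D) * Polynomial.X ^ 2 +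
    Polynomial.C (a₄ * D ^ 2) * Polynomial.X + Polynomial.C (a₆ * D ^ 3) with hg
  have hg0 : g ≠ 0 := by
    have : g.natDegree = 3 := by rw [hg]; compute_degree!
    intro h0
    rw [h0] at this
    simp at this
  let φ : (twist a₂ a₄ a₆ D).toAffine.Point → Option {x : K // x ∈ g.roots.toFinset} := fun P =>
    match P with
    | .zero => none
    | .some x y h => some ⟨x, by
        have hy := twist_point a₂ a₄ a₆ D hD H x y h
        have h1 := h.1
        rw [Affine.equation_iff] at h1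
        simp only [twist, hy] at h1
        rw [Multiset.mem_toFinset, Polynomial.mem_roots hg0, Polynomial.IsRoot.def]
        simp only [hg, Polynomial.eval_add, Polynomial.eval_mul, Polynomial.eval_pow,
          Polynomial.eval_X, Polynomial.eval_C]
        linear_combination -h1⟩
  apply Finite.of_injective φ
  intro P Q hPQ
  rcases P with _ | ⟨x, y, h⟩ <;> rcases Q with _ | ⟨x', y', h'⟩
  · rfl
  · simp [φ] at hPQ
  · simp [φ] at hPQ
  · simp only [φ, Option.some.injEq, Subtype.mk.injEq] at hPQ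
    have hy := twist_point a₂ a₄ a₆ D hD H x y h
    have hy' := twist_point a₂ a₄ a₆ D hD H x' y' h'
    subst hPQ
    subst hy
    subst hy'
    rfl

open WeierstrassCurve Classical in
theorem twist_finrank {K : Type*} [Field K] (a₂ a₄ a₆ : ℤ) (D : K) (hD : D ≠ 0)
    (H : ∀ x y : K, y ≠ 0 → D * y ^ 2 = x ^ 3 + (a₂ : K) * x ^ 2 + (a₄ : K) * x + (a₆ : K) → False) :
    Module.finrank ℤ (twist a₂ a₄ a₆ D).toAffine.Point = 0 := by
  have := twist_finite a₂ a₄ a₆ D hD H
  have hfin : Module.Finite ℤ (twist a₂ a₄ a₆ D).toAffine.Point := inferInstance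
  rw [Module.finrank_eq_zero_iff_isTorsion]
  intro P
  refine ⟨⟨2, ?_⟩, ?_⟩
  · exact mem_nonZeroDivisors_of_ne_zero two_ne_zero
  · have := twist_two_torsion a₂ a₄ a₆ D hD H P
    change (2 : ℤ) • P = 0
    rw [two_zsmul]
    exact this

end Pool.Agent.H126R3
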