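import Pool.Agent.H126R3.Points

set_option autoImplicit false

namespace Pool.Agent.H126R3

open MvPolynomial

/-- not divisible by the square of a nonconstant polynomial -/
def SqfreeNC {σ : Type} (H : MvPolynomial σ ℤ) : Prop :=
  ∀ g : MvPolynomial σ ℤ, g * g ∣ H → g.totalDegree = 0

theorem slice_sqfree {σ : Type} [DecidableEq σ] (i : σ) (H : MvPolynomial σ ℤ) (hs : SqfreeNC H)
    (g : Polynomial (MvPolynomial {j : σ // j ≠ i} ℤ)) (hg : g * g ∣ slice i H) :
    g.natDegree = 0 := by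
  have h1 : (slice i).symm g * (slice i).symm g ∣ H := by
    have := map_dvd (slice i).symm hg
    rwa [map_mul, AlgEquiv.symm_apply_apply] at this
  have h2 := hs _ h1
  rw [totalDegree_eq_zero_iff_eq_C] at h2
  have h3 : g = slice i ((slice i).symm g) := (AlgEquiv.apply_symm_apply _ _).symm
  rw [h3, h2, slice_C, Polynomial.natDegree_C]

theorem const_of_dvd {σ : Type} (g : MvPolynomial σ ℤ) (e : ℤ) (he : e ≠ 0) (h : g ∣ C e) :
    g.totalDegree = 0 := by
  obtain ⟨k, hk⟩ := h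
  have hC : (C e : MvPolynomial σ ℤ) ≠ 0 := by simpa using he
  have hg : g ≠ 0 := by rintro rfl; rw [zero_mul] at hk; exact hC hk
  have hk0 : k ≠ 0 := by rintro rfl; rw [mul_zero] at hk; exact hC hk
  have := congrArg totalDegree hk
  rw [totalDegree_mul_of_isDomain hg hk0, totalDegree_C] at this
  omega

theorem exists_prime_factor {σ : Type} (H : MvPolynomial σ ℤ) (h : 0 < H.totalDegree) :
    ∃ g : MvPolynomial σ ℤ, Prime g ∧ 0 < g.totalDegree ∧ g ∣ H := by
  have h0 : H ≠ 0 := by rintro rfl; simp at h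
  obtain ⟨f, hf, hfH⟩ := UniqueFactorizationMonoid.exists_prime_factors H h0
  by_contra hcon
  push Not at hcon
  have h1 : ∀ b ∈ f, totalDegree b = 0 := by
    intro b hb
    have h2 : b ∣ H := (Multiset.dvd_prod hb).trans hfH.dvd
    by_contra h3
    exact hcon b (hf b hb) (Nat.pos_of_ne_zero h3) h2
  have h2 : f.prod.totalDegree = 0 := by
    have h3 := totalDegree_multiset_prod f
    have h4 : (f.map totalDegree).sum = 0 := by
      apply Multiset.sum_eq_zero
      intro x hx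
      obtain ⟨b, hb, rfl⟩ := Multiset.mem_map.1 hx
      exact h1 b hb
    omega
  obtain ⟨u, hu⟩ := hfH
  have h5 : (u : MvPolynomial σ ℤ).totalDegree = 0 := by
    apply const_of_dvd _ 1 one_ne_zero
    rw [C_1]
    exact u.isUnit.dvd
  have h6 : H.totalDegree ≤ f.prod.totalDegree + (u : MvPolynomial σ ℤ).totalDegree := by
    rw [← hu]; exact totalDegree_mul _ _
  omega

theorem prime_rename {σ τ : Type} (f : σ → τ) (hf : Function.Injective f) (g : MvPolynomial σ ℤ)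
    (hg : Prime g) : Prime (rename f g) := by
  have h1 : rename f g = rename ((↑) : Set.range f → τ) (rename (Equiv.ofInjective f hf) g) := by
    rw [rename_rename]
    rfl
  rw [h1, prime_rename_iff]
  exact (MulEquiv.prime_iff (renameEquiv ℤ (Equiv.ofInjective f hf))).2 hg

theorem multiplicity_rename {σ τ : Type} (f : σ → τ) (hf : Function.Injective f)
    (g H : MvPolynomial σ ℤ) (h : g ∣ H) (h2 : ¬ g * g ∣ H) :
    multiplicity (rename f g) (rename f H) = 1 := by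
  apply multiplicity_eq_of_dvd_of_not_dvd
  · rw [pow_one]
    exact map_dvd _ h
  · intro h3
    apply h2
    have h4 := map_dvd (killCompl hf) h3
    rw [map_pow, killCompl_rename_app, killCompl_rename_app, pow_two] at h4
    exact h4

theorem rankB {σ₁ σ₂ : Type} [DecidableEq σ₁] [DecidableEq σ₂] (a₂ a₄ a₆ : ℤ)
    (hdisc : cubicDisc a₂ a₄ a₆ ≠ 0) (H₁ : MvPolynomial σ₁ ℤ) (H₂ : MvPolynomial σ₂ ℤ)
    (h₁ : 0 < H₁.totalDegree) (h₂ : 0 < H₂.totalDegree) (s₁ : SqfreeNC H₁) (s₂ : SqfreeNC H₂)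
    (K : Type*) [Field K] [Algebra (MvPolynomial (σ₁ ⊕ σ₂) ℤ) K]
    [IsFractionRing (MvPolynomial (σ₁ ⊕ σ₂) ℤ) K] (x y : K) (hy : y ≠ 0)
    (heq : algebraMap (MvPolynomial (σ₁ ⊕ σ₂) ℤ) K (rename Sum.inl H₁ * rename Sum.inr H₂) * y ^ 2 =
      x ^ 3 + (a₂ : K) * x ^ 2 + (a₄ : K) * x + (a₆ : K)) : False := by
  obtain ⟨i, hi⟩ := exists_var H₁ h₁
  obtain ⟨g, hg, hgd, hgH⟩ := exists_prime_factor H₂ h₂
  let f₁ : {j : σ₁ // j ≠ i} → {j : σ₁ ⊕ σ₂ // j ≠ Sum.inl i} := fun j =>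
    ⟨Sum.inl j.1, fun h => j.2 (Sum.inl_injective h)⟩
  let f₂ : σ₂ → {j : σ₁ ⊕ σ₂ // j ≠ Sum.inl i} := fun j => ⟨Sum.inr j, Sum.inr_ne_inl⟩
  have hf₁ : Function.Injective f₁ := by
    intro a b hab
    exact Subtype.ext (Sum.inl_injective (congrArg Subtype.val hab))
  have hf₂ : Function.Injective f₂ := by
    intro a b hab
    exact Sum.inr_injective (congrArg Subtype.val hab)
  have hH0 : slice i H₁ ≠ 0 := by
    intro h
    have := natDegree_slice i H₁
    rw [h, Polynomial.natDegree_zero] at this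
    omega
  have hH₂ : H₂ ≠ 0 := by rintro rfl; simp at h₂
  obtain ⟨u, v, r, hr, hbez⟩ := bezout_fraction (slice i H₁) hH0 (slice_sqfree i H₁ s₁)
  let φ : MvPolynomial {j : σ₁ // j ≠ i} ℤ →+* MvPolynomial {j : σ₁ ⊕ σ₂ // j ≠ Sum.inl i} ℤ :=
    (rename f₁ : _ →ₐ[ℤ] _)
  have hφ : Function.Injective φ := rename_injective f₁ hf₁
  have e1 : slice (Sum.inl i) (rename Sum.inl H₁) = (slice i H₁).map φ := by
    have h : ((slice (Sum.inl i) : MvPolynomial (σ₁ ⊕ σ₂) ℤ ≃ₐ[ℤ] _) : MvPolynomial (σ₁ ⊕ σ₂) ℤ →+* _).comp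
        ((rename Sum.inl : MvPolynomial σ₁ ℤ →ₐ[ℤ] MvPolynomial (σ₁ ⊕ σ₂) ℤ) : MvPolynomial σ₁ ℤ →+* _) =
        (Polynomial.mapRingHom φ).comp ((slice i : MvPolynomial σ₁ ℤ ≃ₐ[ℤ] _) : MvPolynomial σ₁ ℤ →+* _) := by
      apply MvPolynomial.ringHom_ext
      · intro r
        simp
      · intro j
        by_cases hj : j = i
        · subst hj
          simp [slice_X_self]
        · have hj' : (Sum.inl j : σ₁ ⊕ σ₂) ≠ Sum.inl i := fun h => hj (Sum.inl_injective h)
          simp [slice_X_ne i j hj, slice_X_ne (Sum.inl i) (Sum.inl j) hj', φ, f₁]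
    exact congrArg (fun g => g H₁) h
  have e2 : slice (Sum.inl i) (rename Sum.inr H₂) = Polynomial.C (rename f₂ H₂) := by
    have h : ((slice (Sum.inl i) : MvPolynomial (σ₁ ⊕ σ₂) ℤ ≃ₐ[ℤ] _) : MvPolynomial (σ₁ ⊕ σ₂) ℤ →+* _).comp
        ((rename Sum.inr : MvPolynomial σ₂ ℤ →ₐ[ℤ] MvPolynomial (σ₁ ⊕ σ₂) ℤ) : MvPolynomial σ₂ ℤ →+* _) =
        Polynomial.C.comp (rename f₂ : MvPolynomial σ₂ ℤ →ₐ[ℤ]
          MvPolynomial {j : σ₁ ⊕ σ₂ // j ≠ Sum.inl i} ℤ).toRingHom := by
      apply MvPolynomial.ringHom_ext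
      · intro r
        simp
      · intro j
        have hj' : (Sum.inr j : σ₁ ⊕ σ₂) ≠ Sum.inl i := Sum.inr_ne_inl
        simp [slice_X_ne (Sum.inl i) (Sum.inr j) hj', f₂]
    exact congrArg (fun g => g H₂) h
  have hno : ∀ w : MvPolynomial {j : σ₁ // j ≠ i} ℤ, w ≠ 0 → ¬ rename f₂ g ∣ φ w := by
    intro w hw hdvd
    obtain ⟨c, hc⟩ : ∃ c : {j : σ₁ // j ≠ i} → ℤ, eval c w ≠ 0 := by
      by_contra hcon
      push Not at hcon
      apply hw
      apply MvPolynomial.funext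
      intro c
      rw [hcon c, map_zero]
    let ψ : MvPolynomial {j : σ₁ ⊕ σ₂ // j ≠ Sum.inl i} ℤ →ₐ[ℤ] MvPolynomial σ₂ ℤ :=
      aeval (fun j => match j with
        | ⟨Sum.inl a, ha⟩ => C (c ⟨a, fun h => ha (by rw [h])⟩)
        | ⟨Sum.inr b, _⟩ => X b)
    have hψ1 : ψ (rename f₂ g) = g := by
      have h : (ψ.comp (rename f₂)) = AlgHom.id ℤ _ := by
        apply MvPolynomial.algHom_ext
        intro j
        simp [ψ, f₂]
      exact congrArg (fun k => k g) h
    have hψ2 : ψ (rename f₁ w) = C (eval c w) := by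
      have h : (ψ.comp (rename f₁)).toRingHom = C.comp (eval c) := by
        apply MvPolynomial.ringHom_ext
        · intro r; simp
        · intro j
          simp [ψ, f₁]
      exact congrArg (fun k => k w) h
    have h3 := map_dvd ψ hdvd
    have h4 : ψ (φ w) = C (eval c w) := hψ2
    rw [hψ1, h4] at h3
    have := const_of_dvd _ _ hc h3
    omega
  have hconst : ∀ e : ℤ, e ≠ 0 → ¬ rename f₂ g ∣ (e : MvPolynomial {j : σ₁ ⊕ σ₂ // j ≠ Sum.inl i} ℤ) := by
    intro e he h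
    apply hno (C e) (by simpa using he)
    have : φ (C e) = (e : MvPolynomial {j : σ₁ ⊕ σ₂ // j ≠ Sum.inl i} ℤ) := by
      simp [φ]
    rw [this]
    exact h
  refine no_field (Sum.inl i) a₂ a₄ a₆ (rename Sum.inl H₁ * rename Sum.inr H₂) (rename f₂ g)
    (rename f₂ H₂) (φ r) ((slice i H₁).map φ) (u.map φ) (v.map φ) ?_ (prime_rename f₂ hf₂ g hg)
    ?_ (hconst _ hdisc) ?_ ?_ (hno r hr) ?_ ?_ ?_ K x y hy heq
  · rw [map_mul, e1, e2, mul_comm]
  · have := hconst 2 two_ne_zero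
    simpa using this
  · rw [Polynomial.natDegree_map_eq_of_injective hφ, natDegree_slice]
    exact hi
  · rw [Polynomial.leadingCoeff_map_of_injective hφ]
    exact hno _ (Polynomial.leadingCoeff_ne_zero.2 hH0)
  · have := congrArg (Polynomial.map φ) hbez
    rw [Polynomial.map_add, Polynomial.map_mul, Polynomial.map_mul, Polynomial.map_C,
      ← Polynomial.derivative_map] at this
    exact this
  · intro h
    apply hH₂
    apply rename_injective f₂ hf₂
    rw [h, map_zero]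
  · rw [multiplicity_rename f₂ hf₂ g H₂ hgH]
    · exact odd_one
    · intro h
      have := s₂ g h
      omega

end Pool.Agent.H126R3
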