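import Pool.Agent.H126R3.Descent2

set_option autoImplicit false

namespace Pool.Agent.H126R3

open Polynomial

/-- the quartic form attached to a cubic with roots `e₁, e₂, e₃` -/
noncomputable def Quart {R : Type*} [CommRing R] (e₁ e₂ e₃ : R) (A B : R[X]) : R[X] :=
  (A - C e₁ * B) * (A - C e₂ * B) * (A - C e₃ * B) * B

variable {L : Type*} [Field L] (O : ValuationSubring L)

theorem map_ne_zero_of_red {G : O[X]} (hG : G.map (IsLocalRing.residue O) ≠ 0) :
    G.map (algebraMap O L) ≠ 0 := by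
  intro h
  apply hG
  have : G = 0 := map_inj O (by rw [h, Polynomial.map_zero])
  rw [this, Polynomial.map_zero]

theorem map_ne_zero_of_ne {G : O[X]} (hG : G ≠ 0) : G.map (algebraMap O L) ≠ 0 := by
  intro h
  exact hG (map_inj O (by rw [h, Polynomial.map_zero]))

theorem natDegree_map_O (G : O[X]) : (G.map (algebraMap O L)).natDegree = G.natDegree :=
  natDegree_map_eq_of_injective (alg_inj O) G

theorem coe_unit_ne {u : O} (hu : IsUnit u) : (algebraMap O L) u ≠ 0 := by
  intro h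
  have : u = 0 := alg_inj O (by rw [h, map_zero])
  rw [this] at hu
  exact not_isUnit_zero hu

/-- two of the factors have no common root -/
theorem no_common (e₁ e₂ : O) (h12 : IsUnit (e₁ - e₂)) (A B : O[X])
    (hcop : IsCoprime (A.map (algebraMap O L)) (B.map (algebraMap O L))) (a : L)
    (h1 : ((A - C e₁ * B).map (algebraMap O L)).eval a = 0)
    (h2 : ((A - C e₂ * B).map (algebraMap O L)).eval a = 0) : False := by
  obtain ⟨x, y, hxy⟩ := hcop
  have h3 := congrArg (eval a) hxy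
  simp only [Polynomial.map_sub, Polynomial.map_mul, map_C, eval_sub, eval_mul, eval_C, eval_add,
    eval_one] at h1 h2 h3
  set u := (A.map (algebraMap O L)).eval a
  set v := (B.map (algebraMap O L)).eval a
  have h4 : (algebraMap O L e₁ - algebraMap O L e₂) * v = 0 := by linear_combination h2 - h1
  have h5 : (algebraMap O L e₁ - algebraMap O L e₂) ≠ 0 := by
    rw [← map_sub]; exact coe_unit_ne O h12
  have h6 : v = 0 := (mul_eq_zero.1 h4).resolve_left h5
  have h7 : u = 0 := by rw [h6, mul_zero, sub_zero] at h1; exact h1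
  rw [h6, h7] at h3
  simp at h3

theorem no_common' (e₁ : O) (A B : O[X])
    (hcop : IsCoprime (A.map (algebraMap O L)) (B.map (algebraMap O L))) (a : L)
    (h1 : ((A - C e₁ * B).map (algebraMap O L)).eval a = 0)
    (h2 : (B.map (algebraMap O L)).eval a = 0) : False := by
  obtain ⟨x, y, hxy⟩ := hcop
  have h3 := congrArg (eval a) hxy
  simp only [Polynomial.map_sub, Polynomial.map_mul, map_C, eval_sub, eval_mul, eval_C, eval_add,
    eval_one] at h1 h3
  rw [h2, mul_zero, sub_zero] at h1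
  rw [h1, h2] at h3
  simp at h3

/-- each of the three cubic factors is a square, with square roots of equal reduction -/
theorem factors_square [IsAlgClosed L] [DecidableEq L]
    (e₁ e₂ e₃ : O) (h12 : IsUnit (e₁ - e₂)) (h13 : IsUnit (e₁ - e₃)) (h23 : IsUnit (e₂ - e₃))
    (Z : Finset O)
    (hZinj : ∀ z ∈ Z, ∀ w ∈ Z, IsLocalRing.residue O z = IsLocalRing.residue O w → z = w)
    (A B : O[X]) (hA : A.map (IsLocalRing.residue O) ≠ 0)
    (hB : B.map (IsLocalRing.residue O) = 0) (hB0 : B ≠ 0)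
    (hcop : IsCoprime (A.map (algebraMap O L)) (B.map (algebraMap O L)))
    (hpar : ∀ a : L, Odd (((Quart e₁ e₂ e₃ A B).map (algebraMap O L)).rootMultiplicity a) ↔
      ∃ z ∈ Z, (z : L) = a) :
    ∃ T₁ T₂ T₃ : O[X], A - C e₁ * B = T₁ ^ 2 ∧ A - C e₂ * B = T₂ ^ 2 ∧ A - C e₃ * B = T₃ ^ 2 ∧
      T₂.map (IsLocalRing.residue O) = T₁.map (IsLocalRing.residue O) ∧
      T₃.map (IsLocalRing.residue O) = T₁.map (IsLocalRing.residue O) := by
  have hGred : ∀ e : O, (A - C e * B).map (IsLocalRing.residue O) = A.map (IsLocalRing.residue O) := by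
    intro e
    rw [Polynomial.map_sub, Polynomial.map_mul, hB, mul_zero, sub_zero]
  have hGne : ∀ e : O, (A - C e * B).map (algebraMap O L) ≠ 0 := by
    intro e
    apply map_ne_zero_of_red
    rw [hGred]; exact hA
  have hBne := map_ne_zero_of_ne O hB0
  have hmult : ∀ a : L, ((Quart e₁ e₂ e₃ A B).map (algebraMap O L)).rootMultiplicity a =
      ((A - C e₁ * B).map (algebraMap O L)).rootMultiplicity a +
      ((A - C e₂ * B).map (algebraMap O L)).rootMultiplicity a +
      ((A - C e₃ * B).map (algebraMap O L)).rootMultiplicity a +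
      (B.map (algebraMap O L)).rootMultiplicity a := by
    intro a
    rw [Quart, Polynomial.map_mul, Polynomial.map_mul, Polynomial.map_mul,
      rootMultiplicity_mul (mul_ne_zero (mul_ne_zero (mul_ne_zero (hGne _) (hGne _)) (hGne _)) hBne),
      rootMultiplicity_mul (mul_ne_zero (mul_ne_zero (hGne _) (hGne _)) (hGne _)),
      rootMultiplicity_mul (mul_ne_zero (hGne _) (hGne _))]
  have hev : ∀ (G : O[X]) (a : L), Odd ((G.map (algebraMap O L)).rootMultiplicity a) →
      (G.map (algebraMap O L)).eval a = 0 := by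
    intro G a h
    by_contra h'
    rw [rootMultiplicity_eq_zero h'] at h
    exact absurd h (by decide)
  have hz0 : ∀ (G : O[X]) (a : L), (G.map (algebraMap O L)).eval a ≠ 0 →
      (G.map (algebraMap O L)).rootMultiplicity a = 0 := fun G a h => rootMultiplicity_eq_zero h
  have h21 : IsUnit (e₂ - e₁) := by rw [← neg_sub]; exact h12.neg
  have h31 : IsUnit (e₃ - e₁) := by rw [← neg_sub]; exact h13.neg
  have h32 : IsUnit (e₃ - e₂) := by rw [← neg_sub]; exact h23.neg
  have hZof : ∀ e ∈ ({e₁, e₂, e₃} : Finset O), ∀ a : L,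
      Odd (((A - C e * B).map (algebraMap O L)).rootMultiplicity a) → ∃ z ∈ Z, (z : L) = a := by
    intro e he a hodd
    rw [← hpar a, hmult a]
    have h0 := hev _ _ hodd
    simp only [Finset.mem_insert, Finset.mem_singleton] at he
    rcases he with rfl | rfl | rfl
    · rw [hz0 (A - C e₂ * B) a (fun h => no_common O e e₂ h12 A B hcop a h0 h),
        hz0 (A - C e₃ * B) a (fun h => no_common O e e₃ h13 A B hcop a h0 h),
        hz0 B a (fun h => no_common' O e A B hcop a h0 h)]
      simpa using hodd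
    · rw [hz0 (A - C e₁ * B) a (fun h => no_common O e e₁ h21 A B hcop a h0 h),
        hz0 (A - C e₃ * B) a (fun h => no_common O e e₃ h23 A B hcop a h0 h),
        hz0 B a (fun h => no_common' O e A B hcop a h0 h)]
      simpa using hodd
    · rw [hz0 (A - C e₁ * B) a (fun h => no_common O e e₁ h31 A B hcop a h0 h),
        hz0 (A - C e₂ * B) a (fun h => no_common O e e₂ h32 A B hcop a h0 h),
        hz0 B a (fun h => no_common' O e A B hcop a h0 h)]
      simpa using hodd
  classical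
  set Y : O → Finset O := fun e => Z.filter fun z =>
    Odd (((A - C e * B).map (algebraMap O L)).rootMultiplicity (z : L)) with hY
  have hYiff : ∀ e ∈ ({e₁, e₂, e₃} : Finset O), ∀ a : L,
      Odd (((A - C e * B).map (algebraMap O L)).rootMultiplicity a) ↔ ∃ z ∈ Y e, (z : L) = a := by
    intro e he a
    constructor
    · intro h
      obtain ⟨z, hz, rfl⟩ := hZof e he a h
      exact ⟨z, Finset.mem_filter.2 ⟨hz, h⟩, rfl⟩
    · rintro ⟨z, hz, rfl⟩
      exact (Finset.mem_filter.1 hz).2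
  have hkey : ∀ e ∈ ({e₁, e₂, e₃} : Finset O), ∃ (c : O) (S : O[X]), IsUnit c ∧
      S.map (IsLocalRing.residue O) ≠ 0 ∧ A - C e * B = C c * (∏ z ∈ Y e, (X - C z)) * S ^ 2 :=
    fun e he => odd_part_int O _ (by rw [hGred]; exact hA) (Y e) (hYiff e he)
  have hpar2 : ∀ e ∈ ({e₁, e₂, e₃} : Finset O), ∀ z ∈ Z,
      (Odd ((A.map (IsLocalRing.residue O)).rootMultiplicity (IsLocalRing.residue O z)) ↔ z ∈ Y e) := by
    intro e he z hz
    obtain ⟨c, S, hc, hS, hG⟩ := hkey e he
    rw [← hGred e, hG]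
    exact red_parity O Z hZinj (Y e) (Finset.filter_subset _ _) c hc S hS z hz
  have m1 : e₁ ∈ ({e₁, e₂, e₃} : Finset O) := by simp
  have m2 : e₂ ∈ ({e₁, e₂, e₃} : Finset O) := by simp
  have m3 : e₃ ∈ ({e₁, e₂, e₃} : Finset O) := by simp
  have hYe : ∀ e ∈ ({e₁, e₂, e₃} : Finset O), Y e = ∅ := by
    intro e he
    rw [Finset.eq_empty_iff_forall_notMem]
    intro z hz
    have hzZ : z ∈ Z := (Finset.mem_filter.1 hz).1
    have hodd := (hpar2 e he z hzZ).2 hz
    have ha := (hpar2 e₁ m1 z hzZ).1 hodd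
    have hb := (hpar2 e₂ m2 z hzZ).1 hodd
    exact no_common O e₁ e₂ h12 A B hcop z (hev _ _ (Finset.mem_filter.1 ha).2)
      (hev _ _ (Finset.mem_filter.1 hb).2)
  have hsq : ∀ e ∈ ({e₁, e₂, e₃} : Finset O), ∃ T : O[X], A - C e * B = T ^ 2 := by
    intro e he
    obtain ⟨c, S, hc, hS, hG⟩ := hkey e he
    obtain ⟨γ, hγ⟩ := exists_sqrt O c
    refine ⟨C γ * S, ?_⟩
    rw [hG, hYe e he, ← hγ, Finset.prod_empty, C_pow]
    ring
  obtain ⟨T₁, hT₁⟩ := hsq e₁ m1
  obtain ⟨T₂, hT₂⟩ := hsq e₂ m2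
  obtain ⟨T₃, hT₃⟩ := hsq e₃ m3
  have hr : ∀ (e : O) (T : O[X]), A - C e * B = T ^ 2 →
      (T.map (IsLocalRing.residue O)) ^ 2 = A.map (IsLocalRing.residue O) := by
    intro e T hT
    rw [← Polynomial.map_pow, ← hT, hGred]
  have hpm : ∀ (e : O) (T : O[X]), A - C e * B = T ^ 2 → ∃ T' : O[X], A - C e * B = T' ^ 2 ∧
      T'.map (IsLocalRing.residue O) = T₁.map (IsLocalRing.residue O) := by
    intro e T hT
    have h1 := hr e T hT
    have h2 := hr e₁ T₁ hT₁
    rcases sq_eq_sq_iff_eq_or_eq_neg.1 (h1.trans h2.symm) with h | h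
    · exact ⟨T, hT, h⟩
    · exact ⟨-T, by rw [hT]; ring, by rw [Polynomial.map_neg, h, neg_neg]⟩
  obtain ⟨T₂', h2a, h2b⟩ := hpm e₂ T₂ hT₂
  obtain ⟨T₃', h3a, h3b⟩ := hpm e₃ T₃ hT₃
  exact ⟨T₁, T₂', T₃', hT₁, h2a, h3a, h2b, h3b⟩

end Pool.Agent.H126R3
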