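import Pool.Agent.H126R3.Fibers

set_option autoImplicit false

namespace Pool.Agent.H126R3

open MvPolynomial

/-- the closed points whose residue field has `p ^ (k + 1)` elements -/
abbrev Yc {σ : Type} [Finite σ] (c : Nat.Primes × ℕ) : Type := {y : Pt σ // pk y = c}

theorem exists_F (c : Nat.Primes × ℕ) : ∃ (F : Type) (_ : Field F) (_ : Fintype F),
    Fintype.card F = (c.1 : ℕ) ^ (c.2 + 1) := by
  obtain ⟨⟨p, hp⟩, k⟩ := c
  have : Fact p.Prime := ⟨hp⟩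
  have : Finite (GaloisField p (k + 1)) := inferInstance
  have i := Fintype.ofFinite (GaloisField p (k + 1))
  refine ⟨GaloisField p (k + 1), inferInstance, i, ?_⟩
  rw [← Nat.card_eq_fintype_card]
  exact GaloisField.card p (k + 1) (by omega)

/-- the points of `F^σ` above the closed points of degree `k + 1` -/
noncomputable def fibSigma {σ : Type} [Finite σ] (c : Nat.Primes × ℕ) (F : Type) [Field F] [Finite F] :
    {t : σ → F // pk (ptOf t) = c} ≃ Σ y : Yc (σ := σ) c, {t : σ → F // ptOf t = y.1} where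
  toFun t := ⟨⟨ptOf t.1, t.2⟩, ⟨t.1, rfl⟩⟩
  invFun w := ⟨w.2.1, by rw [w.2.2]; exact w.1.2⟩
  left_inv t := rfl
  right_inv w := by
    rcases w with ⟨⟨y, hy⟩, ⟨t, ht⟩⟩
    change ptOf t = y at ht
    subst ht
    rfl

theorem card_fib {σ : Type} [Finite σ] (c : Nat.Primes × ℕ) {F : Type} [Field F] [Fintype F]
    (hF : Fintype.card F = (c.1 : ℕ) ^ (c.2 + 1)) (y : Yc (σ := σ) c) :
    Nat.card {t : σ → F // ptOf t = y.1} = c.2 + 1 :=
  card_fiber y.1 F c.1 c.2 hF y.2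

instance finite_Yc {σ : Type} [Finite σ] (c : Nat.Primes × ℕ) : Finite (Yc (σ := σ) c) := by
  obtain ⟨F, _, _, hF⟩ := exists_F c
  have h : Function.Surjective (fun t : {t : σ → F // pk (ptOf t) = c} =>
      (⟨ptOf t.1, t.2⟩ : Yc (σ := σ) c)) := by
    intro y
    have h1 := card_fib c hF y
    have h2 : Nonempty {t : σ → F // ptOf t = y.1} := by
      rw [← not_isEmpty_iff]
      intro h3
      rw [Nat.card_of_isEmpty] at h1
      omega
    obtain ⟨t, ht⟩ := h2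
    exact ⟨⟨t, by rw [ht]; exact y.2⟩, Subtype.ext ht⟩
  exact Finite.of_surjective _ h

noncomputable instance fintype_Yc {σ : Type} [Finite σ] (c : Nat.Primes × ℕ) :
    Fintype (Yc (σ := σ) c) := Fintype.ofFinite _

open Classical in
theorem sum_fib {σ : Type} [Fintype σ] (c : Nat.Primes × ℕ) {F : Type} [Field F] [Fintype F]
    (hF : Fintype.card F = (c.1 : ℕ) ^ (c.2 + 1)) (g : Yc (σ := σ) c → ℝ) :
    ∑ t : {t : σ → F // pk (ptOf t) = c}, g ⟨ptOf t.1, t.2⟩ =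
      (c.2 + 1 : ℕ) * ∑ y : Yc (σ := σ) c, g y := by
  have h1 : ∑ t : {t : σ → F // pk (ptOf t) = c}, g ⟨ptOf t.1, t.2⟩ =
      ∑ w : (Σ y : Yc (σ := σ) c, {t : σ → F // ptOf t = y.1}), g w.1 :=
    Fintype.sum_equiv (fibSigma c F) _ (fun w => g w.1) (fun t => rfl)
  rw [h1, Fintype.sum_sigma, Finset.mul_sum]
  apply Finset.sum_congr rfl
  intro y _
  have h2 : ∑ x : {t : σ → F // ptOf t = y.1}, g y = (c.2 + 1 : ℕ) * g y := by
    rw [Finset.sum_const, Finset.card_univ, ← Nat.card_eq_fintype_card, card_fib c hF y, nsmul_eq_mul]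
  exact h2

theorem card_Yc_le {σ : Type} [Fintype σ] (c : Nat.Primes × ℕ) :
    (Fintype.card (Yc (σ := σ) c) : ℝ) ≤ ((c.1 : ℕ) : ℝ) ^ ((c.2 + 1) * Fintype.card σ) := by
  classical
  obtain ⟨F, _, _, hF⟩ := exists_F c
  have h1 := sum_fib (σ := σ) c hF (fun _ => 1)
  simp only [Finset.sum_const, Finset.card_univ, nsmul_eq_mul, mul_one] at h1
  have h2 : (Fintype.card {t : σ → F // pk (ptOf t) = c} : ℝ) ≤ Fintype.card (σ → F) := by
    exact_mod_cast Fintype.card_subtype_le _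
  rw [Fintype.card_fun, hF, h1, ← pow_mul] at h2
  have h3 : (0 : ℝ) ≤ Fintype.card (Yc (σ := σ) c) := Nat.cast_nonneg _
  push_cast at h2
  nlinarith [Nat.cast_nonneg (α := ℝ) c.2]

/-- the closed points of `Spec ℤ[t][1/(ND)]` -/
def Good {σ : Type} (N : ℤ) (D : MvPolynomial σ ℤ) (y : Pt σ) : Prop :=
  C N * D ∉ y.asIdeal

/-- the trace of Frobenius at the closed point `y` -/
noncomputable def ay {σ : Type} (a₂ a₄ a₆ : ℤ) (D : MvPolynomial σ ℤ) (y : Pt σ) : ℤ :=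
  tr (Res y) a₂ a₄ a₆ (Ideal.Quotient.mk y.asIdeal D)

theorem good_ptOf {σ : Type} {F : Type} [Field F] [Finite F] (N : ℤ) (D : MvPolynomial σ ℤ)
    (t : σ → F) : Good N D (ptOf t) ↔ (N : F) ≠ 0 ∧ aeval (R := ℤ) t D ≠ 0 := by
  rw [Good, mem_ptOf, map_mul, mul_eq_zero, not_or]
  simp

theorem ay_ptOf {σ : Type} [Finite σ] {F : Type} [Field F] [Fintype F] (p : Nat.Primes) (k : ℕ)
    (h : Fintype.card F = (p : ℕ) ^ (k + 1)) (a₂ a₄ a₆ : ℤ) (D : MvPolynomial σ ℤ)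
    (t : σ → F) (ht : pk (ptOf t) = (p, k)) :
    ay a₂ a₄ a₆ D (ptOf t) = tr F a₂ a₄ a₆ (aeval (R := ℤ) t D) := by
  let φ : Res (ptOf t) →+* F := fiberEquiv (F := F) (ptOf t) ⟨t, rfl⟩
  have := Fintype.ofFinite (Res (ptOf t))
  have hc : Fintype.card (Res (ptOf t)) = Fintype.card F := by
    rw [h, ← Nat.card_eq_fintype_card]
    have := qy_eq (ptOf t)
    rw [ht] at this
    exact this
  have hb : Function.Bijective φ :=
    (Fintype.bijective_iff_injective_and_card φ).2 ⟨φ.injective, hc⟩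
  have h1 : φ (Ideal.Quotient.mk (ptOf t).asIdeal D) = aeval (R := ℤ) t D := rfl
  rw [ay, ← h1]
  exact (tr_congr (RingEquiv.ofBijective φ hb) a₂ a₄ a₆ _).symm

open Classical in
/-- the sum of the traces over the closed points of degree `k + 1` above `p` -/
noncomputable def Ac {σ : Type} [Finite σ] (a₂ a₄ a₆ N : ℤ) (D : MvPolynomial σ ℤ)
    (c : Nat.Primes × ℕ) : ℝ :=
  ∑ y : Yc (σ := σ) c, if Good N D y.1 then (ay a₂ a₄ a₆ D y.1 : ℝ) else 0

/-- the characteristic of the residue field of a good point is odd -/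
theorem good_char {σ : Type} [Finite σ] {N : ℤ} {D : MvPolynomial σ ℤ} {y : Pt σ} (h2 : 2 ∣ N)
    (h : Good N D y) : ringChar (Res y) ≠ 2 := by
  intro hc
  apply h
  obtain ⟨M, rfl⟩ := h2
  have h3 : ((2 : ℕ) : Res y) = 0 := by rw [← hc]; exact ringChar.Nat.cast_ringChar
  have h4 : (C 2 : MvPolynomial σ ℤ) ∈ y.asIdeal := by
    rw [← Ideal.Quotient.eq_zero_iff_mem]
    have : (C 2 : MvPolynomial σ ℤ) = ((2 : ℕ) : MvPolynomial σ ℤ) := by simp
    rw [this, map_natCast]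
    exact h3
  rw [C_mul, mul_assoc]
  exact Ideal.mul_mem_right _ _ h4

theorem good_ne {σ : Type} {N : ℤ} {D : MvPolynomial σ ℤ} {y : Pt σ} (h : Good N D y) :
    Ideal.Quotient.mk y.asIdeal D ≠ 0 := by
  rw [Ne, Ideal.Quotient.eq_zero_iff_mem]
  intro h'
  exact h (Ideal.mul_mem_left _ _ h')

theorem ay_bound {σ : Type} [Finite σ] {N : ℤ} {D : MvPolynomial σ ℤ} {y : Pt σ} (a₂ a₄ a₆ : ℤ)
    (h2 : 2 ∣ N) (h : Good N D y) : |(ay a₂ a₄ a₆ D y : ℝ)| ≤ 2 * Real.sqrt (qy y) :=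
  tr_bound (Res y) (good_char h2 h) a₂ a₄ a₆ _ (good_ne h)

theorem qy_pow {σ : Type} [Finite σ] (c : Nat.Primes × ℕ) (y : Yc (σ := σ) c) :
    (qy y.1 : ℝ) = ((c.1 : ℕ) : ℝ) ^ (c.2 + 1) := by
  rw [qy_eq, y.2]
  push_cast
  rfl

/-- the trivial bound -/
theorem Ac_trivial {σ : Type} [Fintype σ] (a₂ a₄ a₆ N : ℤ) (D : MvPolynomial σ ℤ) (h2 : 2 ∣ N)
    (c : Nat.Primes × ℕ) : |Ac a₂ a₄ a₆ N D c| ≤
      2 * Real.sqrt (((c.1 : ℕ) : ℝ) ^ (c.2 + 1)) * ((c.1 : ℕ) : ℝ) ^ ((c.2 + 1) * Fintype.card σ) := by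
  classical
  rw [Ac]
  refine (Finset.abs_sum_le_sum_abs _ _).trans ?_
  have h : ∀ y ∈ (Finset.univ : Finset (Yc (σ := σ) c)),
      |if Good N D y.1 then (ay a₂ a₄ a₆ D y.1 : ℝ) else 0| ≤
        2 * Real.sqrt (((c.1 : ℕ) : ℝ) ^ (c.2 + 1)) := by
    intro y _
    by_cases hg : Good N D y.1
    · rw [if_pos hg, ← qy_pow c y]
      exact ay_bound a₂ a₄ a₆ h2 hg
    · rw [if_neg hg, abs_zero]
      positivity
  refine (Finset.sum_le_sum h).trans ?_
  rw [Finset.sum_const, Finset.card_univ, nsmul_eq_mul, mul_comm]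
  exact mul_le_mul_of_nonneg_left (card_Yc_le c) (by positivity)

end Pool.Agent.H126R3
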