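import Pool.Agent.H126R3.ClosedPts
import Pool.Agent.H341R2.WeilSharp
import Pool.Agent.H341R2.CurveFacts

set_option autoImplicit false

namespace Pool.Agent.H126R3

/-- The trace of Frobenius `q + 1 - #E(κ)` of the curve `δ y² = x³ + a₂x² + a₄x + a₆` over a finite
field `κ` of `q` elements (the curve has one point at infinity). -/
noncomputable def tr (κ : Type) [Field κ] (a₂ a₄ a₆ : ℤ) (δ : κ) : ℤ :=
  (Nat.card κ : ℤ) + 1 - ((Nat.card {P : κ × κ //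
    δ * P.2 ^ 2 = P.1 ^ 3 + (a₂ : κ) * P.1 ^ 2 + (a₄ : κ) * P.1 + (a₆ : κ)} : ℤ) + 1)

theorem tr_congr {κ κ' : Type} [Field κ] [Field κ'] (e : κ ≃+* κ') (a₂ a₄ a₆ : ℤ) (δ : κ) :
    tr κ' a₂ a₄ a₆ (e δ) = tr κ a₂ a₄ a₆ δ := by
  have h1 : Nat.card κ' = Nat.card κ := Nat.card_congr e.symm.toEquiv
  have h2 : Nat.card {P : κ' × κ' //
      (e δ) * P.2 ^ 2 = P.1 ^ 3 + (a₂ : κ') * P.1 ^ 2 + (a₄ : κ') * P.1 + (a₆ : κ')} =
      Nat.card {P : κ × κ //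
      δ * P.2 ^ 2 = P.1 ^ 3 + (a₂ : κ) * P.1 ^ 2 + (a₄ : κ) * P.1 + (a₆ : κ)} := by
    refine Nat.card_congr (Equiv.subtypeEquiv (e.toEquiv.prodCongr e.toEquiv) ?_).symm
    intro P
    change _ ↔ e δ * (e P.2) ^ 2 = (e P.1) ^ 3 + (a₂ : κ') * (e P.1) ^ 2 + (a₄ : κ') * e P.1 + (a₆ : κ')
    rw [← map_intCast e a₂, ← map_intCast e a₄, ← map_intCast e a₆]
    simp only [← map_pow, ← map_mul, ← map_add]
    exact e.injective.eq_iff.symm
  rw [tr, tr, h1, h2]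

open Classical in
/-- the character sum `∑ χ(f(x))` -/
noncomputable def fs (κ : Type) [Field κ] [Fintype κ] (a₂ a₄ a₆ : ℤ) : ℤ :=
  ∑ x : κ, quadraticChar κ (x ^ 3 + (a₂ : κ) * x ^ 2 + (a₄ : κ) * x + (a₆ : κ))

open Classical in
theorem tr_eq (κ : Type) [Field κ] [Fintype κ] (hF : ringChar κ ≠ 2) (a₂ a₄ a₆ : ℤ) (δ : κ)
    (hδ : δ ≠ 0) : tr κ a₂ a₄ a₆ δ = -(quadraticChar κ δ * fs κ a₂ a₄ a₆) := by
  have h1 : Nat.card {P : κ × κ //
      δ * P.2 ^ 2 = P.1 ^ 3 + (a₂ : κ) * P.1 ^ 2 + (a₄ : κ) * P.1 + (a₆ : κ)} =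
      ∑ x : κ, Nat.card {z : κ // δ * z ^ 2 = x ^ 3 + (a₂ : κ) * x ^ 2 + (a₄ : κ) * x + (a₆ : κ)} := by
    have e : {P : κ × κ // δ * P.2 ^ 2 = P.1 ^ 3 + (a₂ : κ) * P.1 ^ 2 + (a₄ : κ) * P.1 + (a₆ : κ)} ≃
        Σ x : κ, {z : κ // δ * z ^ 2 = x ^ 3 + (a₂ : κ) * x ^ 2 + (a₄ : κ) * x + (a₆ : κ)} :=
      { toFun := fun P => ⟨P.1.1, P.1.2, P.2⟩
        invFun := fun P => ⟨(P.1, P.2.1), P.2.2⟩
        left_inv := fun P => rfl
        right_inv := fun P => rfl }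
    rw [Nat.card_congr e, Nat.card_sigma]
  rw [tr, h1]
  push_cast
  rw [Finset.sum_congr rfl fun x _ => H341R2.card_sqrt hF δ _ hδ, Finset.sum_add_distrib,
    ← Finset.mul_sum, fs, Nat.card_eq_fintype_card]
  simp only [Finset.sum_const, Finset.card_univ, nsmul_eq_mul, mul_one]
  ring

theorem fs_bound (κ : Type) [Field κ] [Fintype κ] (hF : ringChar κ ≠ 2) (a₂ a₄ a₆ : ℤ) :
    |(fs κ a₂ a₄ a₆ : ℝ)| ≤ 2 * Real.sqrt (Fintype.card κ) := by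
  classical
  set g : Polynomial κ := Polynomial.X ^ 3 + Polynomial.C (a₂ : κ) * Polynomial.X ^ 2 +
    Polynomial.C (a₄ : κ) * Polynomial.X + Polynomial.C (a₆ : κ) with hg
  have hdeg : g.natDegree = 3 := by rw [hg]; compute_degree!
  have h := H341R2.Sharp.weil_sharp hF g (by omega) (by
    intro c h hc
    have hc0 : c ≠ 0 := by
      rintro rfl
      rw [hc] at hdeg
      simp at hdeg
    rw [hc, Polynomial.natDegree_C_mul hc0, Polynomial.natDegree_pow] at hdeg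
    omega)
  rw [hdeg] at h
  have e : ∑ x : κ, (quadraticChar κ (g.eval x) : ℝ) = fs κ a₂ a₄ a₆ := by
    rw [fs]
    push_cast
    apply Finset.sum_congr rfl
    intro x _
    congr 2
    simp only [hg, Polynomial.eval_add, Polynomial.eval_mul, Polynomial.eval_pow,
      Polynomial.eval_C, Polynomial.eval_X]
  rw [e] at h
  norm_num at h
  exact h

theorem tr_bound (κ : Type) [Field κ] [Finite κ] (hF : ringChar κ ≠ 2) (a₂ a₄ a₆ : ℤ) (δ : κ)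
    (hδ : δ ≠ 0) : |(tr κ a₂ a₄ a₆ δ : ℝ)| ≤ 2 * Real.sqrt (Nat.card κ) := by
  classical
  have := Fintype.ofFinite κ
  rw [tr_eq κ hF a₂ a₄ a₆ δ hδ, Nat.card_eq_fintype_card]
  push_cast
  rw [abs_neg, abs_mul]
  have h1 : |((quadraticChar κ δ : ℤ) : ℝ)| = 1 := by
    rcases quadraticChar_dichotomy hδ with h | h <;> simp [h]
  rw [h1, one_mul]
  exact fs_bound κ hF a₂ a₄ a₆

end Pool.Agent.H126R3
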