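import Mathlib

set_option autoImplicit false

namespace Pool.Agent.H126R3

open Polynomial

variable {L : Type*} [Field L] (O : ValuationSubring L)

theorem mem_of_valuation_le {a b : L} (hb : b ≠ 0) (h : O.valuation a ≤ O.valuation b) :
    b⁻¹ * a ∈ O := by
  rw [← ValuationSubring.valuation_le_one_iff, map_mul, map_inv₀, mul_comm, ← div_eq_mul_inv]
  exact div_le_one_of_le₀ h zero_le

theorem alg_inj : Function.Injective (algebraMap O L) := Subtype.val_injective

/-- Every nonzero polynomial is a constant times a polynomial with integral coefficients and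
nonzero reduction. -/
theorem prim_scale (G : L[X]) (hG : G ≠ 0) : ∃ (c : L) (G₀ : O[X]), c ≠ 0 ∧
    G = C c * G₀.map (algebraMap O L) ∧ G₀.map (IsLocalRing.residue O) ≠ 0 := by
  have hne : G.support.Nonempty := by simpa [Finset.nonempty_iff_ne_empty] using hG
  obtain ⟨i, hi, hmax⟩ := G.support.exists_max_image (fun j => O.valuation (G.coeff j)) hne
  have hc : G.coeff i ≠ 0 := by simpa using hi
  have hl : C (G.coeff i)⁻¹ * G ∈ Polynomial.lifts (algebraMap O L) := by
    rw [Polynomial.lifts_iff_coeff_lifts]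
    intro j
    rw [coeff_C_mul]
    by_cases hj : G.coeff j = 0
    · rw [hj, mul_zero]; exact ⟨0, by simp⟩
    · exact ⟨⟨_, mem_of_valuation_le O hc (hmax j (by simpa using hj))⟩, rfl⟩
  obtain ⟨G₀, hG₀⟩ := (Polynomial.mem_lifts _).1 hl
  refine ⟨G.coeff i, G₀, hc, ?_, ?_⟩
  · rw [hG₀, ← mul_assoc, ← C_mul, mul_inv_cancel₀ hc, C_1, one_mul]
  · intro h
    have h1 : algebraMap O L (G₀.coeff i) = 1 := by
      rw [← coeff_map, hG₀, coeff_C_mul, inv_mul_cancel₀ hc]
    have h2 : G₀.coeff i = 1 := by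
      apply alg_inj O
      rw [h1, map_one]
    have h3 := congrArg (fun P => coeff P i) h
    simp [coeff_map, h2] at h3

theorem exists_unit_coeff {G : O[X]} (hG : G.map (IsLocalRing.residue O) ≠ 0) :
    ∃ i, IsUnit (G.coeff i) := by
  by_contra hcon
  push Not at hcon
  apply hG
  ext i
  rw [coeff_map, coeff_zero]
  by_contra h
  exact hcon i ((IsLocalRing.residue_ne_zero_iff_isUnit _).1 h)

theorem map_inj : Function.Injective (Polynomial.map (algebraMap O L)) :=
  Polynomial.map_injective _ (alg_inj O)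

/-- Gauss's lemma: a quotient of an integral polynomial by a primitive one is integral. -/
theorem gauss_div (G H₀ : O[X]) (M : L[X]) (h : G.map (algebraMap O L) = H₀.map (algebraMap O L) * M)
    (hH : H₀.map (IsLocalRing.residue O) ≠ 0) : ∃ M₀ : O[X], M = M₀.map (algebraMap O L) := by
  by_cases hM : M = 0
  · exact ⟨0, by simp [hM]⟩
  obtain ⟨c, M₁, hc, hM₁, hred⟩ := prim_scale O M hM
  have h1 : (H₀ * M₁).map (IsLocalRing.residue O) ≠ 0 := by
    rw [Polynomial.map_mul]; exact mul_ne_zero hH hred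
  obtain ⟨i, hi⟩ := exists_unit_coeff O h1
  have h2 : algebraMap O L (G.coeff i) = c * algebraMap O L ((H₀ * M₁).coeff i) := by
    rw [← coeff_map, h, hM₁, ← coeff_map, Polynomial.map_mul, ← coeff_C_mul]
    congr 1
    ring
  obtain ⟨w, hw⟩ := hi
  have h3 : c = algebraMap O L (G.coeff i * (w⁻¹ : Oˣ)) := by
    have h4 : algebraMap O L ((H₀ * M₁).coeff i) * algebraMap O L ((w⁻¹ : Oˣ) : O) = 1 := by
      rw [← map_mul, ← hw, Units.mul_inv, map_one]
    rw [map_mul, h2, mul_assoc, h4, mul_one]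
  refine ⟨C (G.coeff i * (w⁻¹ : Oˣ)) * M₁, ?_⟩
  rw [Polynomial.map_mul, map_C, ← h3, hM₁]

end Pool.Agent.H126R3
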